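import Pool.Agent.R233.TR.Stm

/-! TR-9a (helper164): an analytic subspace of finite codimension is closed. -/

open Filter Topology

namespace Pool.Agent.R233.TR

universe u

namespace Ana

/-- Pettis: a linear map with Baire measurable preimages of balls is bounded near the origin -/
theorem pettis {X : Type u} [NormedAddCommGroup X] [NormedSpace ℂ X] [CompleteSpace X]
    [MeasurableSpace X] [BorelSpace X] {d : ℕ} (P : X →ₗ[ℂ] (Fin d → ℂ))
    (hP : ∀ n : ℕ, MeasurableSet (P ⁻¹' Metric.closedBall 0 (n : ℝ))) : Continuous P := by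
  -- some preimage is residually equal to a nonempty open set
  choose U hUo hU using fun n : ℕ => (hP n).residualEq_isOpen
  have hne : ∃ n, (U n).Nonempty := by
    by_contra hcon
    push Not at hcon
    have h1 : ∀ n : ℕ, ∀ᶠ x in residual X, x ∉ P ⁻¹' Metric.closedBall 0 (n : ℝ) := by
      intro n
      have h2 := (hU n).mem_iff
      filter_upwards [h2] with x hx
      rw [hx, hcon n]
      exact Set.notMem_empty x
    have h2 : ∀ᶠ x in residual X, ∀ n : ℕ, x ∉ P ⁻¹' Metric.closedBall 0 (n : ℝ) :=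
      eventually_countable_forall.mpr h1
    have h3 : Dense {x | ∀ n : ℕ, x ∉ P ⁻¹' Metric.closedBall 0 (n : ℝ)} :=
      dense_of_mem_residual h2
    obtain ⟨x, hx⟩ := h3.nonempty
    obtain ⟨n, hn⟩ := exists_nat_ge ‖P x‖
    refine hx n ?_
    rw [Set.mem_preimage, mem_closedBall_zero_iff]
    exact hn
  obtain ⟨n, x0, hx0⟩ := hne
  obtain ⟨r, hr, hball⟩ := Metric.isOpen_iff.mp (hUo n) x0 hx0
  have hmem := (hU n).mem_iff
  have hbd : ∀ z ∈ Metric.ball (0 : X) r, ‖P z‖ ≤ 2 * n := by
    intro z hz
    have ht : Tendsto (fun y : X => y - z) (residual X) (residual X) :=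
      tendsto_residual_of_isOpenMap (by fun_prop) (Homeomorph.subRight z).isOpenMap
    have h2 := ht.eventually hmem
    have hd : Dense {y | (y ∈ P ⁻¹' Metric.closedBall 0 (n : ℝ) ↔ y ∈ U n) ∧
        (y - z ∈ P ⁻¹' Metric.closedBall 0 (n : ℝ) ↔ y - z ∈ U n)} :=
      dense_of_mem_residual (hmem.and h2)
    have hV : IsOpen (U n ∩ (fun y : X => y - z) ⁻¹' U n) :=
      (hUo n).inter ((hUo n).preimage (by fun_prop))
    have hVne : (U n ∩ (fun y : X => y - z) ⁻¹' U n).Nonempty := by
      refine ⟨x0 + z, ?_, ?_⟩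
      · apply hball
        rw [Metric.mem_ball, dist_eq_norm, add_sub_cancel_left]
        simpa using hz
      · show x0 + z - z ∈ U n
        rw [add_sub_cancel_right]
        exact hx0
    obtain ⟨y, hy1, hy2⟩ := hd.inter_open_nonempty _ hV hVne
    have hyE : y ∈ P ⁻¹' Metric.closedBall 0 (n : ℝ) := hy2.1.mpr hy1.1
    have hyE2 : y - z ∈ P ⁻¹' Metric.closedBall 0 (n : ℝ) := hy2.2.mpr hy1.2
    rw [Set.mem_preimage, mem_closedBall_zero_iff] at hyE hyE2
    have e : P z = P y - P (y - z) := by
      rw [← map_sub, sub_sub_cancel]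
    rw [e]
    calc ‖P y - P (y - z)‖ ≤ ‖P y‖ + ‖P (y - z)‖ := norm_sub_le _ _
      _ ≤ 2 * n := by linarith
  obtain ⟨C, hC⟩ := LinearMap.bound_of_ball_bound hr (2 * n : ℝ) P hbd
  exact AddMonoidHomClass.continuous_of_bound P C hC

end Ana

theorem s_analytic : S_analytic.{u} := by
  intro X _ _ _ _ L hL hfin
  have : SecondCountableTopology X := UniformSpace.secondCountable_of_separable X
  borelize X
  set d := Module.finrank ℂ (X ⧸ L) with hd
  set b := Module.finBasis ℂ (X ⧸ L) with hb
  set P : X →ₗ[ℂ] (Fin d → ℂ) := b.equivFun.toLinearMap ∘ₗ L.mkQ with hP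
  have hker : ∀ x, P x = 0 ↔ x ∈ L := by
    intro x
    rw [hP, LinearMap.comp_apply]
    have h1 : b.equivFun.toLinearMap (L.mkQ x) = b.equivFun (L.mkQ x) := rfl
    rw [h1, LinearEquiv.map_eq_zero_iff, Submodule.mkQ_apply, Submodule.Quotient.mk_eq_zero]
  choose f hf using fun i : Fin d => Submodule.mkQ_surjective L (b i)
  have hPf : ∀ c : Fin d → ℂ, P (∑ i, c i • f i) = c := by
    intro c
    rw [map_sum]
    have h1 : ∀ i, P (c i • f i) = c i • Pi.single i 1 := by
      intro i
      rw [map_smul, hP, LinearMap.comp_apply, hf i]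
      have h2 : b.equivFun.toLinearMap (b i) = b.equivFun (b i) := rfl
      rw [h2]
      congr 1
      funext j
      rw [Module.Basis.equivFun_self]
      by_cases hij : i = j
      · subst hij; simp
      · rw [Pi.single_eq_of_ne (Ne.symm hij), if_neg hij]
    rw [Finset.sum_congr rfl fun i _ => h1 i]
    funext j
    rw [Finset.sum_apply, Finset.sum_eq_single j]
    · simp
    · intro i _ hij
      rw [Pi.smul_apply, Pi.single_eq_of_ne (Ne.symm hij), smul_zero]
    · intro h
      exact absurd (Finset.mem_univ j) h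
  -- preimages of measurable sets are analytic
  have hana : ∀ B : Set (Fin d → ℂ), MeasurableSet B → MeasureTheory.AnalyticSet (P ⁻¹' B) := by
    intro B hB
    have hcont : Continuous (fun z : X × (Fin d → ℂ) => z.1 + ∑ i, z.2 i • f i) := by
      fun_prop
    have heq : P ⁻¹' B = (fun z : X × (Fin d → ℂ) => z.1 + ∑ i, z.2 i • f i) ''
        (Prod.fst ⁻¹' (L : Set X) ∩ Prod.snd ⁻¹' B) := by
      apply Set.Subset.antisymm
      · intro x hx
        refine ⟨(x - ∑ i, P x i • f i, P x), ⟨?_, hx⟩, ?_⟩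
        · show x - ∑ i, P x i • f i ∈ L
          rw [← hker, map_sub, hPf, sub_self]
        · show x - ∑ i, P x i • f i + ∑ i, P x i • f i = x
          rw [sub_add_cancel]
      · rintro _ ⟨⟨l, c⟩, ⟨hl, hc⟩, rfl⟩
        show P (l + ∑ i, c i • f i) ∈ B
        rw [map_add, hPf, (hker l).mpr hl, zero_add]
        exact hc
    rw [heq]
    refine MeasureTheory.AnalyticSet.image_of_continuous ?_ hcont
    have h1 : MeasureTheory.AnalyticSet (Prod.fst ⁻¹' (L : Set X) : Set (X × (Fin d → ℂ))) :=
      MeasureTheory.AnalyticSet.preimage hL continuous_fst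
    have h2 : MeasureTheory.AnalyticSet (Prod.snd ⁻¹' B : Set (X × (Fin d → ℂ))) :=
      MeasureTheory.AnalyticSet.preimage hB.analyticSet continuous_snd
    have h3 : (Prod.fst ⁻¹' (L : Set X) ∩ Prod.snd ⁻¹' B : Set (X × (Fin d → ℂ))) =
        ⋂ i : Bool, (if i = true then Prod.fst ⁻¹' (L : Set X) else Prod.snd ⁻¹' B) := by
      ext z
      simp only [Set.mem_inter_iff, Set.mem_iInter, Bool.forall_bool, if_true]
      constructor
      · intro h; exact ⟨by simpa using h.2, h.1⟩
      · intro h; exact ⟨h.2, by simpa using h.1⟩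
    rw [h3]
    refine MeasureTheory.AnalyticSet.iInter fun i => ?_
    cases i
    · simpa using h2
    · simpa using h1
  have hmeas : ∀ n : ℕ, MeasurableSet (P ⁻¹' Metric.closedBall 0 (n : ℝ)) := by
    intro n
    refine MeasureTheory.AnalyticSet.measurableSet_of_compl
      (hana _ measurableSet_closedBall) ?_
    rw [← Set.preimage_compl]
    exact hana _ measurableSet_closedBall.compl
  have hPc := Ana.pettis P hmeas
  have hLP : (L : Set X) = P ⁻¹' {0} := by
    ext x
    rw [Set.mem_preimage, Set.mem_singleton_iff, hker]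
    rfl
  rw [hLP]
  exact isClosed_singleton.preimage hPc

end Pool.Agent.R233.TR
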