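import Pool.Agent.R233.TR.Stm

/-! Piece TR-7 of project TR (MP_10b086_an): the approximate identity. -/

open Filter Topology

namespace Pool.Agent.R233.TR

universe u

namespace ApprAux

/-- Cauchy-Schwarz for a positive semidefinite form. -/
lemma cs_form {E : Type u} [AddCommGroup E] [Module ℂ E] (P : E → E → ℂ)
    (hadd : ∀ a b c, P (a + b) c = P a c + P b c)
    (hsmul : ∀ (r : ℂ) a b, P (r • a) b = (starRingEnd ℂ) r * P a b)
    (hsymm : ∀ a b, (starRingEnd ℂ) (P b a) = P a b)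
    (hpos : ∀ a, 0 ≤ (P a a).re) (a b : E) :
    ‖P a b‖ ^ 2 ≤ (P a a).re * (P b b).re := by
  let c : PreInnerProductSpace.Core ℂ E :=
    { inner := P
      conj_inner_symm := fun x y => hsymm x y
      re_inner_nonneg := fun x => hpos x
      add_left := hadd
      smul_left := fun x y r => hsmul r x y }
  have h := @InnerProductSpace.Core.inner_mul_inner_self_le ℂ E _ _ _ c a b
  have h2 : ‖P b a‖ = ‖P a b‖ := by
    rw [← hsymm a b, RCLike.norm_conj]
  have h3 : ‖P a b‖ * ‖P b a‖ ≤ (P a a).re * (P b b).re := h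
  rw [h2] at h3
  rw [sq]; exact h3

section

variable {A : Type u} [NonUnitalNormedRing A] [NormedSpace ℂ A] [IsScalarTower ℂ A A]
  [SMulCommClass ℂ A A] [StarRing A] [StarModule ℂ A]

/-- A symmetric map with `0 ≤ T ≤ 1` is a contraction. -/
lemma contr (f : A →ₗ[ℂ] ℂ)
    (c1 : ∀ a, f (star a * a) = ((sn f a ^ 2 : ℝ) : ℂ))
    (c2 : ∀ a b, f (star b * a) = (starRingEnd ℂ) (f (star a * b)))
    (T : A →ₗ[ℂ] A) (hs : ∀ a b, f (star a * T b) = f (star (T a) * b))
    (h0 : ∀ a, 0 ≤ (f (star a * T a)).re) (h1 : ∀ a, (f (star a * T a)).re ≤ sn f a ^ 2) (a : A) :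
    sn f (T a) ^ 2 ≤ (f (star a * T a)).re := by
  have h := cs_form (fun a b => f (star a * T b)) (fun a b c => by
      simp only [star_add, add_mul, map_add]) (fun r a b => by
      simp only [star_smul, smul_mul_assoc, map_smul, smul_eq_mul, Complex.star_def])
    (fun a b => by
      rw [hs a b, c2 b (T a)]) h0 a (T a)
  have e : f (star a * T (T a)) = ((sn f (T a) ^ 2 : ℝ) : ℂ) := by rw [hs, c1]
  rw [e, Complex.norm_real, Real.norm_eq_abs, sq_abs] at h
  have h2 := h1 (T a)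
  have h3 := h0 a
  have h4 : (sn f (T a) ^ 2) * (sn f (T a) ^ 2) ≤ (f (star a * T a)).re * sn f (T a) ^ 2 := by
    rw [← sq]
    exact h.trans (mul_le_mul_of_nonneg_left h2 h3)
  rcases (sq_nonneg (sn f (T a))).eq_or_lt with h5 | h5
  · rw [← h5]; exact h3
  · exact le_of_mul_le_mul_right h4 h5

lemma pow_sym (f : A →ₗ[ℂ] ℂ) (S : A →ₗ[ℂ] A)
    (hs : ∀ a b, f (star a * S b) = f (star (S a) * b)) (m : ℕ) :
    ∀ a b, f (star a * (S ^ m) b) = f (star ((S ^ m) a) * b) := by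
  induction m with
  | zero => intro a b; simp
  | succ m ih =>
    intro a b
    have e1 : (S ^ (m + 1)) b = S ((S ^ m) b) := by rw [pow_succ']; rfl
    have e2 : (S ^ (m + 1)) a = (S ^ m) (S a) := by rw [pow_succ]; rfl
    rw [e1, e2, hs, ih]

lemma pow_le (f : A →ₗ[ℂ] ℂ) (S : A →ₗ[ℂ] A) (hc : ∀ a, sn f (S a) ≤ sn f a) (m : ℕ) :
    ∀ a, sn f ((S ^ m) a) ≤ sn f a := by
  induction m with
  | zero => intro a; simp
  | succ m ih =>
    intro a
    have e1 : (S ^ (m + 1)) a = S ((S ^ m) a) := by rw [pow_succ']; rfl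
    rw [e1]
    exact (hc _).trans (ih a)

lemma sn_neg (f : A →ₗ[ℂ] ℂ) (a : A) : sn f (-a) = sn f a := by
  unfold sn
  rw [star_neg, neg_mul_neg]

/-- The decrease of `‖S^i c‖²`. -/
lemma decay (f : A →ₗ[ℂ] ℂ)
    (c1 : ∀ a, f (star a * a) = ((sn f a ^ 2 : ℝ) : ℂ))
    (c2 : ∀ a b, f (star b * a) = (starRingEnd ℂ) (f (star a * b)))
    (S : A →ₗ[ℂ] A) (hs : ∀ a b, f (star a * S b) = f (star (S a) * b))
    (c : A) (M : ℕ) :
    ((M : ℝ) + 1) * (sn f ((S ^ M) c) ^ 2 - sn f (S ((S ^ M) c)) ^ 2) ≤ sn f c ^ 2 := by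
  -- one step
  have step : ∀ v : A, sn f (S v) ^ 2 - sn f (S (S v)) ^ 2 ≤ sn f v ^ 2 - sn f (S v) ^ 2 := by
    intro v
    have e : f (star (v - S (S v)) * (v - S (S v))) =
        ((sn f v ^ 2 - 2 * sn f (S v) ^ 2 + sn f (S (S v)) ^ 2 : ℝ) : ℂ) := by
      rw [star_sub, sub_mul, mul_sub, mul_sub, map_sub, map_sub, map_sub, c1, c1]
      have e1 : f (star v * S (S v)) = ((sn f (S v) ^ 2 : ℝ) : ℂ) := by rw [hs, c1]
      have e2 : f (star (S (S v)) * v) = ((sn f (S v) ^ 2 : ℝ) : ℂ) := by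
        rw [c2, e1, Complex.conj_ofReal]
      rw [e1, e2]
      push_cast
      ring
    rw [c1] at e
    have e3 : sn f (v - S (S v)) ^ 2 =
        sn f v ^ 2 - 2 * sn f (S v) ^ 2 + sn f (S (S v)) ^ 2 := by exact_mod_cast e
    have := sq_nonneg (sn f (v - S (S v)))
    linarith
  -- sum
  have key : ∀ M : ℕ, ((M : ℝ) + 1) * (sn f ((S ^ M) c) ^ 2 - sn f (S ((S ^ M) c)) ^ 2) ≤
      sn f c ^ 2 - sn f (S ((S ^ M) c)) ^ 2 := by
    intro M
    induction M with
    | zero => simp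
    | succ M ih =>
      have e1 : (S ^ (M + 1)) c = S ((S ^ M) c) := by rw [pow_succ']; rfl
      rw [e1]
      have h := step ((S ^ M) c)
      push_cast
      have h2 : ((M : ℝ) + 1) * (sn f (S ((S ^ M) c)) ^ 2 - sn f (S (S ((S ^ M) c))) ^ 2) ≤
          ((M : ℝ) + 1) * (sn f ((S ^ M) c) ^ 2 - sn f (S ((S ^ M) c)) ^ 2) :=
        mul_le_mul_of_nonneg_left h (by positivity)
      linarith
  have := key M
  have h0 := sq_nonneg (sn f (S ((S ^ M) c)))
  linarith

/-- the elements `y_m` with `a - S^m a = y_m a` -/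
lemma ym (e : A) (he : e ∈ sq2 A) (r : ℂ) (m : ℕ) :
    ∃ y ∈ sq2 A, ∀ a, a - ((LinearMap.id - r • LinearMap.mulLeft ℂ e : A →ₗ[ℂ] A) ^ m) a =
      y * a := by
  induction m with
  | zero => exact ⟨0, Submodule.zero_mem _, fun a => by simp⟩
  | succ m ih =>
    obtain ⟨y, hy, h⟩ := ih
    refine ⟨y + r • e - r • (y * e), ?_, fun a => ?_⟩
    · refine Submodule.sub_mem _ (Submodule.add_mem _ hy (Submodule.smul_mem _ _ he))
        (Submodule.smul_mem _ _ ?_)
      exact Submodule.subset_span ⟨y, e, rfl⟩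
    · have e1 : ((LinearMap.id - r • LinearMap.mulLeft ℂ e : A →ₗ[ℂ] A) ^ (m + 1)) a =
          ((LinearMap.id - r • LinearMap.mulLeft ℂ e : A →ₗ[ℂ] A) ^ m)
            (a - r • (e * a)) := by
        rw [pow_succ]; rfl
      have h2 := h (a - r • (e * a))
      have h3 : ((LinearMap.id - r • LinearMap.mulLeft ℂ e : A →ₗ[ℂ] A) ^ m)
          (a - r • (e * a)) = (a - r • (e * a)) - y * (a - r • (e * a)) := by
        rw [← h2]; abel
      rw [e1, h3, mul_sub, sub_mul, add_mul, smul_mul_assoc, smul_mul_assoc, mul_smul_comm,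
        mul_assoc]
      abel

end

end ApprAux

open ApprAux in
theorem s_appr (h1 : S_cs.{u}) (h3 : S_kap.{u}) : S_appr.{u} := by
  intro A _ _ _ _ _ _ _ f hf n x b ε hε
  obtain ⟨c0, c1, c2, c3, -, -⟩ := h1 A f hf
  have hk := h3 A f hf
  obtain ⟨e, he⟩ : ∃ e : A, e = ∑ j, x j * star (x j) := ⟨_, rfl⟩
  have he2 : e ∈ sq2 A := by
    rw [he]
    exact Submodule.sum_mem _ fun j _ => Submodule.subset_span ⟨x j, star (x j), rfl⟩
  have hes : star e = e := by
    rw [he, star_sum]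
    exact Finset.sum_congr rfl fun j _ => by rw [star_mul, star_star]
  have hea : ∀ a, f (star a * (e * a)) = ((∑ j, sn f (star (x j) * a) ^ 2 : ℝ) : ℂ) := by
    intro a
    rw [he, Finset.sum_mul, Finset.mul_sum, map_sum, Complex.ofReal_sum]
    refine Finset.sum_congr rfl fun j _ => ?_
    rw [← c1, star_mul, star_star, mul_assoc, mul_assoc]
  obtain ⟨R, hR⟩ : ∃ R : ℝ, R = 1 + ∑ j, ‖x j * star (x j)‖ := ⟨_, rfl⟩
  have hR0 : 0 < R := by
    rw [hR]
    have : 0 ≤ ∑ j, ‖x j * star (x j)‖ := Finset.sum_nonneg fun j _ => norm_nonneg _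
    linarith
  have hsum : ∀ a, ∑ j, sn f (star (x j) * a) ^ 2 ≤ R * sn f a ^ 2 := by
    intro a
    have h4 : ∀ j, sn f (star (x j) * a) ^ 2 ≤ ‖x j * star (x j)‖ * sn f a ^ 2 := by
      intro j
      have h5 := hk (star (x j)) a
      rw [star_star] at h5
      calc sn f (star (x j) * a) ^ 2 ≤ (Real.sqrt ‖x j * star (x j)‖ * sn f a) ^ 2 :=
            pow_le_pow_left₀ (c0 _) h5 2
        _ = ‖x j * star (x j)‖ * sn f a ^ 2 := by
            rw [mul_pow, Real.sq_sqrt (norm_nonneg _)]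
    calc ∑ j, sn f (star (x j) * a) ^ 2 ≤ ∑ j, ‖x j * star (x j)‖ * sn f a ^ 2 :=
          Finset.sum_le_sum fun j _ => h4 j
      _ = (∑ j, ‖x j * star (x j)‖) * sn f a ^ 2 := by rw [Finset.sum_mul]
      _ ≤ R * sn f a ^ 2 := by
          refine mul_le_mul_of_nonneg_right ?_ (sq_nonneg _)
          rw [hR]; linarith
  obtain ⟨S, hS⟩ : ∃ S : A →ₗ[ℂ] A, S = LinearMap.id - ((R⁻¹ : ℝ) : ℂ) • LinearMap.mulLeft ℂ e :=
    ⟨_, rfl⟩
  have hSa : ∀ a, S a = a - ((R⁻¹ : ℝ) : ℂ) • (e * a) := by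
    intro a; rw [hS]; rfl
  have hs : ∀ a b, f (star a * S b) = f (star (S a) * b) := by
    intro a b
    rw [hSa, hSa, star_sub, sub_mul, mul_sub, star_smul, Complex.star_def, Complex.conj_ofReal,
      star_mul, hes, mul_smul_comm, smul_mul_assoc, mul_assoc]
  have hSre : ∀ a, (f (star a * S a)).re = sn f a ^ 2 - R⁻¹ * ∑ j, sn f (star (x j) * a) ^ 2 := by
    intro a
    rw [hSa, mul_sub, mul_smul_comm, map_sub, map_smul, hea, c1, smul_eq_mul,
      ← Complex.ofReal_mul, ← Complex.ofReal_sub, Complex.ofReal_re]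
  have hS0 : ∀ a, 0 ≤ (f (star a * S a)).re := by
    intro a
    rw [hSre]
    have h6 : R⁻¹ * ∑ j, sn f (star (x j) * a) ^ 2 ≤ R⁻¹ * (R * sn f a ^ 2) :=
      mul_le_mul_of_nonneg_left (hsum a) (by positivity)
    rw [← mul_assoc, inv_mul_cancel₀ hR0.ne', one_mul] at h6
    linarith
  have hS1 : ∀ a, (f (star a * S a)).re ≤ sn f a ^ 2 := by
    intro a
    rw [hSre]
    have : 0 ≤ R⁻¹ * ∑ j, sn f (star (x j) * a) ^ 2 :=
      mul_nonneg (by positivity) (Finset.sum_nonneg fun j _ => sq_nonneg _)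
    linarith
  have hSc := contr f c1 c2 S hs hS0 hS1
  have hSle : ∀ a, sn f (S a) ≤ sn f a := fun a =>
    le_of_sq_le_sq ((hSc a).trans (hS1 a)) (c0 a)
  -- the choice of the power
  obtain ⟨K, hK⟩ : ∃ K : ℝ, K = ∑ j, sn f (b j) ^ 2 * (R * sn f (x j * b j) ^ 2) := ⟨_, rfl⟩
  obtain ⟨m, hm⟩ := exists_nat_ge (K / ε ^ 4)
  rw [div_le_iff₀ (by positivity)] at hm
  obtain ⟨y, hy, hya⟩ := ym e he2 ((R⁻¹ : ℝ) : ℂ) (m + m)
  rw [← hS] at hya
  refine ⟨y, hy, ?_, ?_⟩
  · -- contraction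
    have hT : ∀ a, (LinearMap.id - S ^ (m + m) : A →ₗ[ℂ] A) a = y * a := by
      intro a; rw [← hya a]; rfl
    have hq : ∀ a, f (star a * (S ^ (m + m)) a) = ((sn f ((S ^ m) a) ^ 2 : ℝ) : ℂ) := by
      intro a
      have e1 : (S ^ (m + m)) a = (S ^ m) ((S ^ m) a) := by rw [pow_add]; rfl
      rw [e1, pow_sym f S hs m, c1]
    have hre : ∀ a, (f (star a * (LinearMap.id - S ^ (m + m) : A →ₗ[ℂ] A) a)).re =
        sn f a ^ 2 - sn f ((S ^ m) a) ^ 2 := by
      intro a
      have e1 : (LinearMap.id - S ^ (m + m) : A →ₗ[ℂ] A) a = a - (S ^ (m + m)) a := rfl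
      rw [e1, mul_sub, map_sub, hq, c1, ← Complex.ofReal_sub, Complex.ofReal_re]
    have h7 := contr f c1 c2 (LinearMap.id - S ^ (m + m)) (fun a b => by
        have e1 : ∀ c, (LinearMap.id - S ^ (m + m) : A →ₗ[ℂ] A) c = c - (S ^ (m + m)) c :=
          fun _ => rfl
        rw [e1, e1, mul_sub, map_sub, star_sub, sub_mul, map_sub, pow_sym f S hs (m + m)])
      (fun a => by
        rw [hre]
        have := pow_le_pow_left₀ (c0 _) (pow_le f S hSle m a) 2
        linarith)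
      (fun a => by
        rw [hre]
        have := sq_nonneg (sn f ((S ^ m) a))
        linarith)
    intro a
    rw [← hT a]
    refine le_of_sq_le_sq ((h7 a).trans ?_) (c0 a)
    rw [hre]
    have := sq_nonneg (sn f ((S ^ m) a))
    linarith
  · intro j
    obtain ⟨c, hc⟩ : ∃ c : A, c = x j * b j := ⟨_, rfl⟩
    rw [← hc]
    have e1 : y * c - c = -((S ^ (m + m)) c) := by rw [← hya c]; abel
    rw [e1, sn_neg]
    obtain ⟨v, hv⟩ : ∃ v : A, v = (S ^ (m + m)) c := ⟨_, rfl⟩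
    obtain ⟨w, hw⟩ : ∃ w : A, w = (S ^ (m + m + (m + m))) c := ⟨_, rfl⟩
    have hvw : (S ^ (m + m)) v = w := by
      rw [hv, hw, pow_add S (m + m) (m + m)]; rfl
    rw [← hv]
    have g1 : sn f v ^ 2 ≤ sn f (b j) * sn f (star (x j) * w) := by
      have e2 : f (star v * v) = f (star (b j) * (star (x j) * w)) := by
        have e3 : f (star v * v) = f (star c * w) := by
          rw [← hvw, pow_sym f S hs (m + m), ← hv]
        rw [e3, hc, star_mul, mul_assoc]
      have h8 := c3 (b j) (star (x j) * w)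
      rw [← e2, c1, Complex.norm_real, Real.norm_eq_abs, abs_of_nonneg (sq_nonneg _)] at h8
      exact h8
    have g2 : sn f (star (x j) * w) ^ 2 ≤ R * (sn f w ^ 2 - sn f (S w) ^ 2) := by
      have h9 : sn f (star (x j) * w) ^ 2 ≤ ∑ i, sn f (star (x i) * w) ^ 2 :=
        Finset.single_le_sum (f := fun i => sn f (star (x i) * w) ^ 2)
          (fun i _ => sq_nonneg _) (Finset.mem_univ j)
      have h10 := hSre w
      have h11 := hSc w
      have h12 : R⁻¹ * ∑ i, sn f (star (x i) * w) ^ 2 ≤ sn f w ^ 2 - sn f (S w) ^ 2 := by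
        linarith
      rw [inv_mul_le_iff₀ hR0] at h12
      linarith
    have g3 := decay f c1 c2 S hs c (m + m + (m + m))
    rw [← hw] at g3
    have g4 : ((m : ℝ)) * (sn f w ^ 2 - sn f (S w) ^ 2) ≤ sn f c ^ 2 := by
      have h13 : 0 ≤ sn f w ^ 2 - sn f (S w) ^ 2 := by
        have := pow_le_pow_left₀ (c0 _) (hSle w) 2
        linarith
      refine le_trans (mul_le_mul_of_nonneg_right ?_ h13) g3
      push_cast
      have : (0 : ℝ) ≤ m := by positivity
      linarith
    have g5 : sn f v ^ 4 ≤ sn f (b j) ^ 2 * (R * (sn f w ^ 2 - sn f (S w) ^ 2)) := by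
      calc sn f v ^ 4 = (sn f v ^ 2) ^ 2 := by ring
        _ ≤ (sn f (b j) * sn f (star (x j) * w)) ^ 2 := pow_le_pow_left₀ (sq_nonneg _) g1 2
        _ = sn f (b j) ^ 2 * sn f (star (x j) * w) ^ 2 := by ring
        _ ≤ _ := mul_le_mul_of_nonneg_left g2 (sq_nonneg _)
    have g6 : sn f (b j) ^ 2 * (R * sn f c ^ 2) ≤ K := by
      rw [hK, hc]
      exact Finset.single_le_sum (f := fun j => sn f (b j) ^ 2 * (R * sn f (x j * b j) ^ 2))
        (fun i _ => by positivity) (Finset.mem_univ j)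
    -- m = 0 is harmless
    have g7 : (m : ℝ) * sn f v ^ 4 ≤ K := by
      calc (m : ℝ) * sn f v ^ 4 ≤ m * (sn f (b j) ^ 2 * (R * (sn f w ^ 2 - sn f (S w) ^ 2))) :=
            mul_le_mul_of_nonneg_left g5 (by positivity)
        _ = sn f (b j) ^ 2 * R * (m * (sn f w ^ 2 - sn f (S w) ^ 2)) := by ring
        _ ≤ sn f (b j) ^ 2 * R * sn f c ^ 2 :=
            mul_le_mul_of_nonneg_left g4 (by positivity)
        _ ≤ K := by rw [mul_assoc]; exact g6
    by_contra hcon
    push Not at hcon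
    have g8 : ε ^ 4 < sn f v ^ 4 := pow_lt_pow_left₀ hcon hε.le (by norm_num)
    rcases Nat.eq_zero_or_pos m with h0 | h0
    · -- m = 0: K ≤ 0
      rw [h0, Nat.cast_zero, zero_mul] at hm
      have g9 : sn f (b j) ^ 2 * (R * sn f c ^ 2) ≤ 0 := g6.trans hm
      have g10 : sn f v ^ 2 ≤ 0 := by
        have h14 : sn f (b j) * sn f c = 0 := by
          have h15 : 0 < R := hR0
          have h16 : (sn f (b j) * sn f c) ^ 2 ≤ 0 := by
            have h17 : R * (sn f (b j) * sn f c) ^ 2 ≤ 0 := by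
              calc R * (sn f (b j) * sn f c) ^ 2 = sn f (b j) ^ 2 * (R * sn f c ^ 2) := by ring
                _ ≤ 0 := g9
            by_contra hne
            push Not at hne
            have := mul_pos h15 hne
            linarith
          exact pow_eq_zero_iff (two_ne_zero) |>.mp (le_antisymm h16 (sq_nonneg _))
        have h18 : sn f (star (x j) * w) ^ 2 ≤ R * sn f c ^ 2 := by
          refine g2.trans (mul_le_mul_of_nonneg_left ?_ hR0.le)
          have h19 := pow_le_pow_left₀ (c0 _) (pow_le f S hSle (m + m + (m + m)) c) 2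
          rw [← hw] at h19
          have := sq_nonneg (sn f (S w))
          linarith
        rcases mul_eq_zero.mp h14 with h20 | h20
        · rw [h20, zero_mul] at g1; exact g1
        · rw [h20] at h18
          have h21 : sn f (star (x j) * w) = 0 := by
            have h22 : sn f (star (x j) * w) ^ 2 ≤ 0 := by simpa using h18
            exact pow_eq_zero_iff (two_ne_zero) |>.mp (le_antisymm h22 (sq_nonneg _))
          rw [h21, mul_zero] at g1; exact g1
      have g11 : sn f v ^ 4 ≤ 0 := by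
        have : sn f v ^ 2 = 0 := le_antisymm g10 (sq_nonneg _)
        calc sn f v ^ 4 = (sn f v ^ 2) ^ 2 := by ring
          _ ≤ 0 := by rw [this]; norm_num
      have : 0 < ε ^ 4 := by positivity
      linarith
    · have h0' : (0 : ℝ) < m := by exact_mod_cast h0
      have := mul_lt_mul_of_pos_left g8 h0'
      linarith

end Pool.Agent.R233.TR
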