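import Pool.Agent.R233.TR.Stm

/-!
# MP_10b086_an : assembly (project TR)
-/

open Filter Topology

namespace Pool.Agent.R233.TR

universe u

lemma cu3_eq_top {A : Type u} [NonUnitalRing A] [Module ℂ A] [IsScalarTower ℂ A A]
    [SMulCommClass ℂ A A] (h : sq2 A = ⊤) : cu3 A = ⊤ := by
  rw [eq_top_iff, ← h]
  unfold sq2
  rw [Submodule.span_le]
  rintro x ⟨a, b, rfl⟩
  have ha : a ∈ sq2 A := by rw [h]; exact Submodule.mem_top
  show a * b ∈ cu3 A
  unfold sq2 at ha
  induction ha using Submodule.span_induction with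
  | mem x hx =>
    obtain ⟨c, d, rfl⟩ := hx
    exact Submodule.subset_span ⟨c, d, b, rfl⟩
  | zero => rw [zero_mul]; exact Submodule.zero_mem _
  | add x y _ _ hx hy => rw [add_mul]; exact Submodule.add_mem _ hx hy
  | smul c x _ hx => rw [smul_mul_assoc]; exact Submodule.smul_mem _ _ hx

/-- all traces are continuous if `A³` is closed and of finite codimension -/
theorem trace_H2 (hu : S_ubp.{u}) (hc : S_cofin.{u}) (A : Type u) [NonUnitalNormedRing A]
    [NormedSpace ℂ A] [IsScalarTower ℂ A A] [SMulCommClass ℂ A A] [CompleteSpace A] [StarRing A]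
    [StarModule ℂ A] (f : A →ₗ[ℂ] ℂ) (hf : Positive f) (ht : ∀ a b, f (a * b) = f (b * a))
    (h1 : IsClosed (cu3 A : Set A)) (h2 : FiniteDimensional ℂ (A ⧸ cu3 A)) : Continuous f :=
  hc A (cu3 A) f h1 h2 (hu A f hf ht h1)

theorem trace_H1 (hu : S_ubp.{u}) (hc : S_cofin.{u}) (A : Type u) [NonUnitalNormedRing A]
    [NormedSpace ℂ A] [IsScalarTower ℂ A A] [SMulCommClass ℂ A A] [CompleteSpace A] [StarRing A]
    [StarModule ℂ A] (f : A →ₗ[ℂ] ℂ) (hf : Positive f) (ht : ∀ a b, f (a * b) = f (b * a))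
    (h : sq2 A = ⊤) : Continuous f := by
  have h3 := cu3_eq_top h
  refine trace_H2 hu hc A f hf ht ?_ ?_
  · rw [h3]; exact isClosed_univ
  · rw [h3]
    infer_instance

theorem trace_H4 (hu : S_ubp.{u}) (hc : S_cofin.{u}) (ha : S_analytic.{u})
    (hb : S_cu3_analytic.{u}) (hd : S_cu3_cofin.{u}) (A : Type u) [NonUnitalNormedRing A]
    [NormedSpace ℂ A] [IsScalarTower ℂ A A] [SMulCommClass ℂ A A] [CompleteSpace A] [StarRing A]
    [StarModule ℂ A] [TopologicalSpace.SeparableSpace A] (f : A →ₗ[ℂ] ℂ) (hf : Positive f)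
    (ht : ∀ a b, f (a * b) = f (b * a))
    (h : FiniteDimensional ℂ (A ⧸ sq2 A)) : Continuous f := by
  have h3 := hd A h
  exact trace_H2 hu hc A f hf ht (ha A (cu3 A) (hb A) h3) h3

end Pool.Agent.R233.TR
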