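import Pool.Agent.R233.TR.Stm

open Filter Topology

namespace Pool.Agent.R233.TR

universe u

/-- TR-5 -/
theorem s_bdd (h1 : S_cs.{u}) (_h3 : S_kap.{u}) (h4 : S_fest.{u}) : S_bdd.{u} := by
  intro A _ _ _ _ _ _ _ f hf
  obtain ⟨hN0, hNN, _, hCS, htri, hsm⟩ := h1 A f hf
  have hcs' : ∀ x a, (sn f (x * a)) ^ 2 ≤ sn f a * sn f (star x * x * a) := by
    intro x a
    have e : star (x * a) * (x * a) = star a * (star x * x * a) := by
      rw [star_mul]; simp only [mul_assoc]
    have h := hNN (x * a)
    rw [e] at h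
    have h' := hCS a (star x * x * a)
    rwa [h, Complex.norm_real, Real.norm_of_nonneg (sq_nonneg _)] at h'
  have F1 : ∀ x K, 0 ≤ K → (∀ a, sn f (star x * x * a) ≤ K ^ 2 * sn f a) →
      ∀ a, sn f (x * a) ≤ K * sn f a := by
    intro x K hK h a
    have h2 : (sn f (x * a)) ^ 2 ≤ (K * sn f a) ^ 2 := by
      refine (hcs' x a).trans ?_
      have := mul_le_mul_of_nonneg_left (h a) (hN0 a)
      refine this.trans (le_of_eq ?_)
      ring
    exact (pow_le_pow_iff_left₀ (hN0 _) (mul_nonneg hK (hN0 a)) two_ne_zero).1 h2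
  have F2 : ∀ x K, 0 ≤ K → (∀ a, sn f (x * a) ≤ K * sn f a) →
      ∀ a, sn f (star x * a) ≤ K * sn f a := by
    intro x K hK h a
    have h2 := hcs' (star x) a
    rw [star_star, mul_assoc] at h2
    have h3 := h (star x * a)
    have h4 : (sn f (star x * a)) ^ 2 ≤ (K * sn f a) * sn f (star x * a) := by
      refine h2.trans ((mul_le_mul_of_nonneg_left h3 (hN0 a)).trans (le_of_eq ?_))
      ring
    rcases (hN0 (star x * a)).lt_or_eq with h5 | h5
    · rw [pow_two] at h4
      exact le_of_mul_le_mul_right h4 h5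
    · rw [← h5]
      exact mul_nonneg hK (hN0 a)
  have hsub : ∀ z h : A, (∀ a, sn f ((z - h) * a) = 0) → ∀ a, sn f (h * a) = sn f (z * a) := by
    intro z h hz a
    apply le_antisymm
    · have e : h * a = z * a + (-1 : ℂ) • ((z - h) * a) := by
        rw [sub_mul, neg_smul, one_smul]; abel
      have := htri (z * a) ((-1 : ℂ) • ((z - h) * a))
      rw [← e, hsm, hz a, mul_zero, add_zero] at this
      exact this
    · have e : z * a = h * a + (z - h) * a := by
        rw [sub_mul]; abel
      have := htri (h * a) ((z - h) * a)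
      rw [← e, hz a, add_zero] at this
      exact this
  have F4 : ∀ x y : A, (∀ a, sn f ((y - star x) * a) = 0) →
      ∀ a, sn f (x * a) ≤ Real.sqrt ‖y * x‖ * sn f a := by
    intro x y hxy
    apply F1 x _ (Real.sqrt_nonneg _)
    intro a
    rw [Real.sq_sqrt (norm_nonneg _)]
    have hz : ∀ a, sn f ((y * x - star x * x) * a) = 0 := by
      intro a
      have e : (y * x - star x * x) * a = (y - star x) * (x * a) := by
        rw [← sub_mul, mul_assoc]
      rw [e]
      exact hxy _
    rw [hsub _ _ hz a]
    exact h4 A f hf (y * x) (star x * x) (by rw [star_mul, star_star]) hz a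
  have Zstar : ∀ w : A, (∀ a, sn f (w * a) = 0) → ∀ a, sn f (star w * a) = 0 := by
    intro w hw a
    have h := F2 w 0 le_rfl (fun a => by rw [hw a, zero_mul]) a
    rw [zero_mul] at h
    exact le_antisymm h (hN0 _)
  -- the graph
  let G : Submodule ℝ (A × A) :=
    { carrier := {p | ∀ a, sn f ((p.2 - star p.1) * a) = 0}
      add_mem' := by
        intro p q hp hq a
        have e : ((p + q).2 - star (p + q).1) * a =
            (p.2 - star p.1) * a + (q.2 - star q.1) * a := by
          rw [Prod.snd_add, Prod.fst_add, star_add, ← add_mul]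
          congr 1; abel
        rw [e]
        have h := htri ((p.2 - star p.1) * a) ((q.2 - star q.1) * a)
        rw [hp a, hq a, add_zero] at h
        exact le_antisymm h (hN0 _)
      zero_mem' := by
        intro a
        have h := hsm 0 (0 : A)
        simp only [Prod.snd_zero, Prod.fst_zero, star_zero, sub_zero, zero_mul]
        rw [norm_zero, zero_mul, smul_zero] at h
        exact h
      smul_mem' := by
        intro c p hp a
        have e : ((c • p).2 - star (c • p).1) * a = (c : ℂ) • ((p.2 - star p.1) * a) := by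
          rw [Prod.smul_snd, Prod.smul_fst, ← Complex.coe_smul, ← Complex.coe_smul, star_smul,
            Complex.star_def, Complex.conj_ofReal, ← smul_sub, smul_mul_assoc]
        rw [e, hsm, hp a, mul_zero] }
  have hGm : ∀ p : A × A, p ∈ G ↔ ∀ a, sn f ((p.2 - star p.1) * a) = 0 := fun _ => Iff.rfl
  have hGclosed : IsClosed (G : Set (A × A)) := by
    apply IsSeqClosed.isClosed
    intro p q hp hpq a
    set y : A := q.2 - star q.1 with hy
    have t1 : Tendsto (fun n => (p n).1 - q.1) atTop (𝓝 0) := by
      have := ((continuous_fst.tendsto q).comp hpq).sub_const q.1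
      simpa using this
    have t2 : Tendsto (fun n => (p n).2 - star q.1) atTop (𝓝 y) :=
      ((continuous_snd.tendsto q).comp hpq).sub_const (star q.1)
    have hXY : ∀ n a, sn f ((((p n).2 - star q.1) - star ((p n).1 - q.1)) * a) = 0 := by
      intro n a
      have e : ((p n).2 - star q.1) - star ((p n).1 - q.1) = (p n).2 - star (p n).1 := by
        rw [star_sub]; abel
      rw [e]
      exact hp n a
    have b1 : ∀ n, sn f (((p n).2 - star q.1) * a) ≤
        Real.sqrt ‖((p n).2 - star q.1) * ((p n).1 - q.1)‖ * sn f a := by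
      intro n
      rw [← hsub _ _ (hXY n) a]
      exact F2 _ _ (Real.sqrt_nonneg _) (F4 _ _ (hXY n)) a
    have b2 : ∀ n, sn f ((y - ((p n).2 - star q.1)) * a) ≤
        Real.sqrt ‖(star y - ((p n).1 - q.1)) * (y - ((p n).2 - star q.1))‖ * sn f a := by
      intro n
      refine F4 _ _ (fun a => ?_) a
      have e : (star y - ((p n).1 - q.1)) - star (y - ((p n).2 - star q.1)) =
          star ((((p n).2 - star q.1) - star ((p n).1 - q.1))) := by
        simp only [star_sub, star_star]; abel
      rw [e]
      exact Zstar _ (hXY n) a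
    have hle : ∀ n, sn f (y * a) ≤
        (Real.sqrt ‖(star y - ((p n).1 - q.1)) * (y - ((p n).2 - star q.1))‖ +
          Real.sqrt ‖((p n).2 - star q.1) * ((p n).1 - q.1)‖) * sn f a := by
      intro n
      have e : y * a = (y - ((p n).2 - star q.1)) * a + ((p n).2 - star q.1) * a := by
        rw [← add_mul]; congr 1; abel
      rw [e, add_mul]
      exact (htri _ _).trans (add_le_add (b2 n) (b1 n))
    have t3 : Tendsto (fun n => (star y - ((p n).1 - q.1)) * (y - ((p n).2 - star q.1))) atTop
        (𝓝 0) := by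
      have := (t1.const_sub (star y)).mul (t2.const_sub y)
      simpa using this
    have t4 : Tendsto (fun n => ((p n).2 - star q.1) * ((p n).1 - q.1)) atTop (𝓝 0) := by
      have := t2.mul t1
      simpa using this
    have t5 : Tendsto (fun n =>
        (Real.sqrt ‖(star y - ((p n).1 - q.1)) * (y - ((p n).2 - star q.1))‖ +
          Real.sqrt ‖((p n).2 - star q.1) * ((p n).1 - q.1)‖) * sn f a) atTop (𝓝 0) := by
      have h5 := (Real.continuous_sqrt.tendsto _).comp t3.norm
      have h6 := (Real.continuous_sqrt.tendsto _).comp t4.norm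
      have := (h5.add h6).mul_const (sn f a)
      simpa using this
    exact le_antisymm (ge_of_tendsto' t5 hle) (hN0 _)
  have hcomp : CompleteSpace G := hGclosed.completeSpace_coe
  let π : G →L[ℝ] A := (ContinuousLinearMap.fst ℝ A A).comp G.subtypeL
  have hsurj : Function.Surjective π := by
    intro x
    refine ⟨⟨(x, star x), ?_⟩, rfl⟩
    rw [hGm]
    intro a
    have h := hsm 0 (0 : A)
    rw [norm_zero, zero_mul, smul_zero] at h
    simp only [sub_self, zero_mul]
    exact h
  obtain ⟨C, hC, hpre⟩ := π.exists_preimage_norm_le hsurj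
  refine ⟨Real.sqrt C, Real.sqrt_nonneg _, ?_⟩
  intro x a
  obtain ⟨⟨p, hpG⟩, hp1, hp2⟩ := hpre x
  have hp1' : p.1 = x := hp1
  have hp2' : ‖p‖ ≤ C * ‖x‖ := hp2
  have hy : ‖p.2‖ ≤ C * ‖x‖ := (norm_snd_le p).trans hp2'
  rw [hGm, hp1'] at hpG
  have h5 := F4 x p.2 hpG a
  refine h5.trans (mul_le_mul_of_nonneg_right ?_ (hN0 a))
  rw [show Real.sqrt C * ‖x‖ = Real.sqrt (C * ‖x‖ ^ 2) by
    rw [Real.sqrt_mul hC.le, Real.sqrt_sq (norm_nonneg _)]]
  apply Real.sqrt_le_sqrt
  refine (norm_mul_le _ _).trans ?_
  have := mul_le_mul_of_nonneg_right hy (norm_nonneg x)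
  refine this.trans (le_of_eq ?_)
  ring

end Pool.Agent.R233.TR
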