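import Pool.Agent.R233.TR.Stm

/-! # TR-8b: a functional bounded on a closed subspace of finite codimension is continuous -/

open Filter Topology

namespace Pool.Agent.R233.TR

universe u

theorem s_cofin : S_cofin.{u} := by
  intro X _ _ L f hL hfin hC
  obtain ⟨C, hC⟩ := hC
  let K : Submodule ℂ X := L ⊓ LinearMap.ker f
  have hcont : Continuous (fun z : L => f (z : X)) := by
    have h : Continuous (LinearMap.mkContinuous (f.domRestrict L) C
        (fun z => by simpa using hC z z.2)) := ContinuousLinearMap.continuous _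
    exact h
  have hKc : IsClosed (K : Set X) := by
    have h1 : IsClosed {z : L | f (z : X) = 0} := isClosed_eq hcont continuous_const
    have h2 := hL.isClosedEmbedding_subtypeVal.isClosedMap _ h1
    have h3 : (Subtype.val '' {z : L | f (z : X) = 0} : Set X) = (K : Set X) := by
      ext x
      constructor
      · rintro ⟨z, hz, rfl⟩
        exact ⟨z.2, hz⟩
      · rintro ⟨h4, h5⟩
        exact ⟨⟨x, h4⟩, h5, rfl⟩
    rw [← h3]
    exact h2
  haveI : IsClosed (K : Set X) := hKc
  have hker : K ≤ LinearMap.ker f := inf_le_right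
  have hkerL : K = LinearMap.ker (L.mkQ.prod f) := by
    ext x
    change (x ∈ L ∧ f x = 0) ↔ (L.mkQ x, f x) = 0
    rw [Prod.mk_eq_zero, Submodule.mkQ_apply, Submodule.Quotient.mk_eq_zero]
  haveI : FiniteDimensional ℂ (X ⧸ K) := by
    let g : (X ⧸ K) →ₗ[ℂ] ((X ⧸ L) × ℂ) := K.liftQ (L.mkQ.prod f) (le_of_eq hkerL)
    have hg : Function.Injective g := by
      rw [← LinearMap.ker_eq_bot]
      exact Submodule.ker_liftQ_eq_bot _ _ _ (le_of_eq hkerL.symm)
    exact FiniteDimensional.of_injective g hg
  have h1 : Continuous (K.liftQ f hker) := LinearMap.continuous_of_finiteDimensional _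
  have h2 : Continuous (K.mkQ : X → X ⧸ K) := continuous_quot_mk
  have h3 : (f : X → ℂ) = (K.liftQ f hker) ∘ (K.mkQ) := by
    ext x
    simp
  rw [h3]
  exact h1.comp h2

end Pool.Agent.R233.TR
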