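import Mathlib

/-!
# MP_10b086_an : automatic continuity of traces on Banach star algebras (project TR)

Definitions and the statements of the pieces.  Proofs: NOTES.md in this folder.
The involution is NOT assumed to be continuous (no NormedStarGroup), except in the example.
-/

open Filter Topology

namespace Pool.Agent.R233.TR

universe u

/-- `f` is a positive functional: `f (a* a)` is a nonnegative real number for all `a`. -/
def Positive {A : Type u} [NonUnitalRing A] [StarRing A] [Module ℂ A] (f : A →ₗ[ℂ] ℂ) : Prop :=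
  ∀ a : A, 0 ≤ (f (star a * a)).re ∧ (f (star a * a)).im = 0

/-- the seminorm `f (a* a) ^ (1/2)` -/
noncomputable def sn {A : Type u} [NonUnitalRing A] [StarRing A] [Module ℂ A] (f : A →ₗ[ℂ] ℂ)
    (a : A) : ℝ := Real.sqrt (f (star a * a)).re

/-- `A²`, the span of all products `a b`. -/
def sq2 (A : Type u) [NonUnitalRing A] [Module ℂ A] : Submodule ℂ A :=
  Submodule.span ℂ {x | ∃ a b : A, x = a * b}

/-- `A³`, the span of all products `a b c`. -/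
def cu3 (A : Type u) [NonUnitalRing A] [Module ℂ A] : Submodule ℂ A :=
  Submodule.span ℂ {x | ∃ a b c : A, x = a * b * c}

/-- `ℓ¹(ι)` -/
noncomputable abbrev L1 (ι : Type) := lp (fun _ : ι => ℂ) 1

/-- TR-1 (Cauchy-Schwarz). -/
def S_cs : Prop :=
  ∀ (A : Type u) [NonUnitalRing A] [StarRing A] [Module ℂ A] [IsScalarTower ℂ A A]
    [SMulCommClass ℂ A A] [StarModule ℂ A] (f : A →ₗ[ℂ] ℂ), Positive f →
    (∀ a, 0 ≤ sn f a) ∧
    (∀ a, f (star a * a) = ((sn f a ^ 2 : ℝ) : ℂ)) ∧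
    (∀ a b, f (star b * a) = (starRingEnd ℂ) (f (star a * b))) ∧
    (∀ a b, ‖f (star a * b)‖ ≤ sn f a * sn f b) ∧
    (∀ a b, sn f (a + b) ≤ sn f a + sn f b) ∧
    (∀ (c : ℂ) a, sn f (c • a) = ‖c‖ * sn f a)

/-- TR-2 (Ford's square root lemma in quasi-regular form; discontinuous involution allowed). -/
def S_ford : Prop :=
  ∀ (A : Type u) [NonUnitalNormedRing A] [NormedSpace ℂ A] [IsScalarTower ℂ A A]
    [SMulCommClass ℂ A A] [CompleteSpace A] [StarRing A] [StarModule ℂ A] (h : A),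
    star h = h → ‖h‖ < 1 → ∃ v : A, star v = v ∧ v + v - v * v = h

/-- TR-3 -/
def S_kap : Prop :=
  ∀ (A : Type u) [NonUnitalNormedRing A] [NormedSpace ℂ A] [IsScalarTower ℂ A A]
    [SMulCommClass ℂ A A] [CompleteSpace A] [StarRing A] [StarModule ℂ A] (f : A →ₗ[ℂ] ℂ),
    Positive f → ∀ x a : A, sn f (x * a) ≤ Real.sqrt ‖star x * x‖ * sn f a

/-- TR-4 -/
def S_fest : Prop :=
  ∀ (A : Type u) [NonUnitalNormedRing A] [NormedSpace ℂ A] [IsScalarTower ℂ A A]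
    [SMulCommClass ℂ A A] [CompleteSpace A] [StarRing A] [StarModule ℂ A] (f : A →ₗ[ℂ] ℂ),
    Positive f → ∀ z h : A, star h = h → (∀ a, sn f ((z - h) * a) = 0) →
    ∀ a, sn f (z * a) ≤ ‖z‖ * sn f a

/-- TR-5 -/
def S_bdd : Prop :=
  ∀ (A : Type u) [NonUnitalNormedRing A] [NormedSpace ℂ A] [IsScalarTower ℂ A A]
    [SMulCommClass ℂ A A] [CompleteSpace A] [StarRing A] [StarModule ℂ A] (f : A →ₗ[ℂ] ℂ),
    Positive f → ∃ C : ℝ, 0 ≤ C ∧ ∀ x a : A, sn f (x * a) ≤ C * ‖x‖ * sn f a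

/-- TR-6 -/
def S_trace : Prop :=
  ∀ (A : Type u) [NonUnitalNormedRing A] [NormedSpace ℂ A] [IsScalarTower ℂ A A]
    [SMulCommClass ℂ A A] [CompleteSpace A] [StarRing A] [StarModule ℂ A] (f : A →ₗ[ℂ] ℂ),
    Positive f → (∀ a b, f (a * b) = f (b * a)) →
    (∀ y ∈ sq2 A, ∃ K : ℝ, ∀ x, ‖f (x * y)‖ ≤ K * ‖x‖) ∧
    (∀ z ∈ sq2 A, ∃ K : ℝ, ∀ y, (∀ a, sn f (y * a) ≤ sn f a) → ‖f (z * y)‖ ≤ K)

/-- TR-7 (approximate identity). -/
def S_appr : Prop :=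
  ∀ (A : Type u) [NonUnitalNormedRing A] [NormedSpace ℂ A] [IsScalarTower ℂ A A]
    [SMulCommClass ℂ A A] [CompleteSpace A] [StarRing A] [StarModule ℂ A] (f : A →ₗ[ℂ] ℂ),
    Positive f → ∀ (n : ℕ) (x b : Fin n → A) (ε : ℝ), 0 < ε →
    ∃ y ∈ sq2 A, (∀ a, sn f (y * a) ≤ sn f a) ∧ ∀ j, sn f (y * (x j * b j) - x j * b j) ≤ ε

/-- TR-8a (uniform boundedness and the approximate identity). -/
def S_ubp : Prop :=
  ∀ (A : Type u) [NonUnitalNormedRing A] [NormedSpace ℂ A] [IsScalarTower ℂ A A]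
    [SMulCommClass ℂ A A] [CompleteSpace A] [StarRing A] [StarModule ℂ A] (f : A →ₗ[ℂ] ℂ),
    Positive f → (∀ a b, f (a * b) = f (b * a)) → IsClosed (cu3 A : Set A) →
    ∃ C : ℝ, ∀ z ∈ cu3 A, ‖f z‖ ≤ C * ‖z‖

/-- TR-8b -/
def S_cofin : Prop :=
  ∀ (X : Type u) [NormedAddCommGroup X] [NormedSpace ℂ X] (L : Submodule ℂ X)
    (f : X →ₗ[ℂ] ℂ), IsClosed (L : Set X) → FiniteDimensional ℂ (X ⧸ L) →
    (∃ C : ℝ, ∀ z ∈ L, ‖f z‖ ≤ C * ‖z‖) → Continuous f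

/-- TR-9a (an analytic subspace of finite codimension is closed). -/
def S_analytic : Prop :=
  ∀ (X : Type u) [NormedAddCommGroup X] [NormedSpace ℂ X] [CompleteSpace X]
    [TopologicalSpace.SeparableSpace X] (L : Submodule ℂ X),
    MeasureTheory.AnalyticSet (L : Set X) → FiniteDimensional ℂ (X ⧸ L) → IsClosed (L : Set X)

/-- TR-9b -/
def S_cu3_analytic : Prop :=
  ∀ (A : Type u) [NonUnitalNormedRing A] [NormedSpace ℂ A] [IsScalarTower ℂ A A]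
    [SMulCommClass ℂ A A] [CompleteSpace A] [TopologicalSpace.SeparableSpace A],
    MeasureTheory.AnalyticSet (cu3 A : Set A)

/-- TR-9c -/
def S_cu3_cofin : Prop :=
  ∀ (A : Type u) [NonUnitalRing A] [Module ℂ A] [IsScalarTower ℂ A A] [SMulCommClass ℂ A A],
    FiniteDimensional ℂ (A ⧸ sq2 A) → FiniteDimensional ℂ (A ⧸ cu3 A)

/-- EX-2 (data for the example). -/
def S_exdata : Prop :=
  ∃ (I M : Type) (_ : NormedAddCommGroup M) (_ : NormedSpace ℂ M) (_ : StarAddMonoid M)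
    (_ : NormedStarGroup M) (_ : StarModule ℂ M) (_ : CompleteSpace M) (τ : M →ₗ[ℂ] ℂ)
    (bt : L1 I →L[ℂ] L1 I →L[ℂ] M) (t : I → ℂ),
    ¬ Continuous τ ∧ (∀ l, ‖t l‖ ≤ 1) ∧ (∀ c d, ‖bt c d‖ ≤ ‖c‖ * ‖d‖) ∧
    (∀ c d, τ (bt c d) = ∑' l, c l * d l * t l) ∧
    (∀ m : M, ∃ (r : ℂ) (c d : L1 I), m = r • bt c d)

/-- EX-3 (the example). -/
def S_example : Prop :=
  ∃ (A : Type) (_ : NonUnitalNormedRing A) (_ : NormedSpace ℂ A) (_ : IsScalarTower ℂ A A)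
    (_ : SMulCommClass ℂ A A) (_ : CompleteSpace A) (_ : StarRing A) (_ : StarModule ℂ A)
    (_ : NormedStarGroup A) (f : A →ₗ[ℂ] ℂ),
    sq2 A = ⊤ ∧ Positive f ∧ ¬ Continuous f

end Pool.Agent.R233.TR
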