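import Mathlib
import Pool.Agent.R233.TR.Stm

/-!
Project TR (MP_10b086_an): piece TR-1, Cauchy-Schwarz.
-/

universe u

namespace Pool.Agent.R233.TR

namespace CS

variable {A : Type u} [NonUnitalRing A] [StarRing A] [Module ℂ A] [IsScalarTower ℂ A A]
    [SMulCommClass ℂ A A] [StarModule ℂ A]

lemma ex (f : A →ₗ[ℂ] ℂ) (c d : ℂ) (a b : A) :
    f (star (c • a + d • b) * (c • a + d • b)) =
      (starRingEnd ℂ) c * c * f (star a * a) + (starRingEnd ℂ) c * d * f (star a * b) +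
      ((starRingEnd ℂ) d * c * f (star b * a) + (starRingEnd ℂ) d * d * f (star b * b)) := by
  simp only [star_add, star_smul, add_mul, mul_add, smul_mul_smul_comm, map_add, map_smul,
    smul_eq_mul]
  simp only [Complex.star_def]
  ring

lemma conj_eq (f : A →ₗ[ℂ] ℂ) (hf : Positive f) (a b : A) :
    f (star b * a) = (starRingEnd ℂ) (f (star a * b)) := by
  have ha := (hf a).2
  have hb := (hf b).2
  have h1 := (hf ((1 : ℂ) • a + (1 : ℂ) • b)).2
  rw [ex] at h1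
  have h2 := (hf ((1 : ℂ) • a + Complex.I • b)).2
  rw [ex] at h2
  simp only [map_one, one_mul, Complex.add_im, Complex.conj_I, mul_one, Complex.mul_im,
    Complex.neg_re, Complex.neg_im, Complex.I_re, Complex.I_im, Complex.mul_re] at h1 h2
  refine Complex.ext ?_ ?_
  · rw [Complex.conj_re]
    linarith
  · rw [Complex.conj_im]
    linarith

lemma sn_sq (f : A →ₗ[ℂ] ℂ) (hf : Positive f) (a : A) : sn f a ^ 2 = (f (star a * a)).re := by
  unfold sn
  exact Real.sq_sqrt (hf a).1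

lemma val (f : A →ₗ[ℂ] ℂ) (hf : Positive f) (a : A) :
    f (star a * a) = ((sn f a ^ 2 : ℝ) : ℂ) := by
  refine Complex.ext ?_ ?_
  · rw [Complex.ofReal_re, sn_sq f hf]
  · rw [Complex.ofReal_im, (hf a).2]

lemma cauchy (f : A →ₗ[ℂ] ℂ) (hf : Positive f) (a b : A) :
    ‖f (star a * b)‖ ≤ sn f a * sn f b := by
  set z := f (star a * b) with hz
  have hba : f (star b * a) = (starRingEnd ℂ) z := conj_eq f hf a b
  have key : ∀ t : ℝ, 0 ≤ (‖z‖ ^ 2 * sn f a ^ 2) * (t * t) + (-2 * ‖z‖ ^ 2) * t + sn f b ^ 2 := by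
    intro t
    have h1 := (hf ((-(t : ℂ) * z) • a + (1 : ℂ) • b)).1
    rw [ex, val f hf a, val f hf b, hba, ← hz] at h1
    have h2 : (starRingEnd ℂ) (-(t : ℂ) * z) * (-(t : ℂ) * z) * ((sn f a ^ 2 : ℝ) : ℂ) +
        (starRingEnd ℂ) (-(t : ℂ) * z) * 1 * z + ((starRingEnd ℂ) 1 * (-(t : ℂ) * z) *
        (starRingEnd ℂ) z + (starRingEnd ℂ) 1 * 1 * ((sn f b ^ 2 : ℝ) : ℂ)) =
        (((‖z‖ ^ 2 * sn f a ^ 2) * (t * t) + (-2 * ‖z‖ ^ 2) * t + sn f b ^ 2 : ℝ) : ℂ) := by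
      have h3 : z * (starRingEnd ℂ) z = ((‖z‖ ^ 2 : ℝ) : ℂ) := by
        rw [Complex.mul_conj, Complex.normSq_eq_norm_sq]
      simp only [map_mul, map_neg, Complex.conj_ofReal, map_one]
      push_cast at h3 ⊢
      linear_combination ((t : ℂ) ^ 2 * (sn f a : ℂ) ^ 2 - 2 * t) * h3
    rw [h2, Complex.ofReal_re] at h1
    exact h1
  have hd := discrim_le_zero key
  unfold discrim at hd
  have ha : 0 ≤ sn f a := Real.sqrt_nonneg _
  have hb : 0 ≤ sn f b := Real.sqrt_nonneg _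
  have hz0 : 0 ≤ ‖z‖ := norm_nonneg _
  by_contra hc
  push Not at hc
  have hp : 0 ≤ sn f a * sn f b := mul_nonneg ha hb
  have h4 : (sn f a * sn f b) ^ 2 < ‖z‖ ^ 2 := pow_lt_pow_left₀ hc hp (by norm_num)
  have h5 : 0 < ‖z‖ ^ 2 := lt_of_le_of_lt (sq_nonneg _) h4
  nlinarith [mul_pos h5 (sub_pos.2 h4)]

end CS

theorem s_cs : S_cs.{u} := by
  intro A _ _ _ _ _ _ f hf
  refine ⟨fun a => Real.sqrt_nonneg _, CS.val f hf, CS.conj_eq f hf, CS.cauchy f hf, ?_, ?_⟩
  · intro a b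
    have ha : 0 ≤ sn f a := Real.sqrt_nonneg _
    have hb : 0 ≤ sn f b := Real.sqrt_nonneg _
    apply abs_le_of_sq_le_sq' _ (add_nonneg ha hb) |>.2
    have h1 := CS.ex f 1 1 a b
    rw [one_smul, one_smul] at h1
    have h2 : (f (star (a + b) * (a + b))).re = (f (star a * a)).re + (f (star a * b)).re +
        ((f (star b * a)).re + (f (star b * b)).re) := by
      rw [h1]
      simp
    rw [CS.sn_sq f hf, h2, CS.conj_eq f hf a b, Complex.conj_re, ← CS.sn_sq f hf,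
      ← CS.sn_sq f hf]
    have h3 := (Complex.re_le_norm _).trans (CS.cauchy f hf a b)
    nlinarith
  · intro c a
    have h1 := CS.ex f c 0 a a
    rw [zero_smul, add_zero] at h1
    unfold sn
    rw [h1]
    have h2 : ((starRingEnd ℂ) c * c * f (star a * a) + (starRingEnd ℂ) c * 0 * f (star a * a) +
      ((starRingEnd ℂ) 0 * c * f (star a * a) + (starRingEnd ℂ) 0 * 0 * f (star a * a))) =
        ((‖c‖ ^ 2 : ℝ) : ℂ) * f (star a * a) := by
      rw [← Complex.normSq_eq_norm_sq, ← Complex.mul_conj]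
      simp only [map_zero]
      ring
    rw [h2, Complex.re_ofReal_mul, Real.sqrt_mul (sq_nonneg _), Real.sqrt_sq (norm_nonneg _)]

end Pool.Agent.R233.TR
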