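import Pool.Agent.R233.TR.Stm

/-! TR-9b (helper164): the span of the triple products is analytic. -/

open Filter Topology

namespace Pool.Agent.R233.TR

universe u

theorem s_cu3_analytic : S_cu3_analytic.{u} := by
  intro A _ _ _ _ _ _
  have : SecondCountableTopology A := UniformSpace.secondCountable_of_separable A
  have heq : (cu3 A : Set A) = ⋃ n : ℕ,
      Set.range (fun t : Fin n → A × A × A => ∑ i, (t i).1 * (t i).2.1 * (t i).2.2) := by
    apply Set.Subset.antisymm
    · intro x hx
      have hx' : x ∈ Submodule.span ℂ {x | ∃ a b c : A, x = a * b * c} := hx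
      rw [Set.mem_iUnion]
      clear hx
      induction hx' using Submodule.span_induction with
      | mem x h =>
        obtain ⟨a, b, c, rfl⟩ := h
        refine ⟨1, fun _ => (a, b, c), ?_⟩
        simp
      | zero => exact ⟨0, fun i => 0, by simp⟩
      | add x y hx hy ihx ihy =>
        obtain ⟨n, s, hs⟩ := ihx
        obtain ⟨m, t, ht⟩ := ihy
        refine ⟨n + m, Fin.append s t, ?_⟩
        show ∑ i : Fin (n + m), (Fin.append s t i).1 * (Fin.append s t i).2.1 *
          (Fin.append s t i).2.2 = x + y
        rw [Fin.sum_univ_add]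
        simp only [Fin.append_left, Fin.append_right]
        have hs' : ∑ i, (s i).1 * (s i).2.1 * (s i).2.2 = x := hs
        have ht' : ∑ i, (t i).1 * (t i).2.1 * (t i).2.2 = y := ht
        rw [hs', ht']
      | smul c x hx ih =>
        obtain ⟨n, s, hs⟩ := ih
        refine ⟨n, fun i => (c • (s i).1, (s i).2.1, (s i).2.2), ?_⟩
        have hs' : ∑ i, (s i).1 * (s i).2.1 * (s i).2.2 = x := hs
        show ∑ i, (c • (s i).1) * (s i).2.1 * (s i).2.2 = c • x
        rw [← hs', Finset.smul_sum]
        refine Finset.sum_congr rfl fun i _ => ?_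
        rw [smul_mul_assoc, smul_mul_assoc]
    · intro x hx
      rw [Set.mem_iUnion] at hx
      obtain ⟨n, t, rfl⟩ := hx
      refine Submodule.sum_mem _ fun i _ => ?_
      exact Submodule.subset_span ⟨_, _, _, rfl⟩
  rw [heq]
  refine MeasureTheory.AnalyticSet.iUnion fun n => ?_
  refine MeasureTheory.analyticSet_range_of_polishSpace ?_
  fun_prop

end Pool.Agent.R233.TR
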