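import Pool.Agent.R233.TR.Stm

/-! # TR-9c: if `A²` has finite codimension, so has `A³` -/

open Filter Topology

namespace Pool.Agent.R233.TR

universe u

theorem s_cu3_cofin : S_cu3_cofin.{u} := by
  intro A _ _ _ _ hfin
  obtain ⟨F, hF⟩ := Submodule.exists_isCompl (sq2 A)
  have hl : ∀ a ∈ sq2 A, ∀ b : A, a * b ∈ cu3 A := by
    intro a ha b
    unfold sq2 at ha
    induction ha using Submodule.span_induction with
    | mem x hx =>
      obtain ⟨c, d, rfl⟩ := hx
      exact Submodule.subset_span ⟨c, d, b, rfl⟩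
    | zero => rw [zero_mul]; exact Submodule.zero_mem _
    | add x y _ _ hx hy => rw [add_mul]; exact Submodule.add_mem _ hx hy
    | smul r x _ hx => rw [smul_mul_assoc]; exact Submodule.smul_mem _ _ hx
  have hr : ∀ a ∈ sq2 A, ∀ b : A, b * a ∈ cu3 A := by
    intro a ha b
    unfold sq2 at ha
    induction ha using Submodule.span_induction with
    | mem x hx =>
      obtain ⟨c, d, rfl⟩ := hx
      exact Submodule.subset_span ⟨b, c, d, (mul_assoc _ _ _).symm⟩
    | zero => rw [mul_zero]; exact Submodule.zero_mem _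
    | add x y _ _ hx hy => rw [mul_add]; exact Submodule.add_mem _ hx hy
    | smul r x _ hx => rw [mul_smul_comm]; exact Submodule.smul_mem _ _ hx
  have hFfin : FiniteDimensional ℂ F :=
    LinearEquiv.finiteDimensional (Submodule.quotientEquivOfIsCompl _ _ hF)
  have hFfg : F.FG := Module.Finite.iff_fg.1 hFfin
  let G : Submodule ℂ A := Submodule.map₂ (LinearMap.mul ℂ A) F F
  have hGfg : G.FG := Submodule.FG.map₂ _ hFfg hFfg
  have hsplit : ∀ a : A, ∃ a2 ∈ sq2 A, ∃ φ ∈ F, a2 + φ = a := by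
    intro a
    have : a ∈ sq2 A ⊔ F := by rw [hF.sup_eq_top]; trivial
    exact Submodule.mem_sup.1 this
  have hsq : sq2 A ≤ cu3 A ⊔ G := by
    unfold sq2
    rw [Submodule.span_le]
    rintro x ⟨a, b, rfl⟩
    obtain ⟨a2, ha2, φ, hφ, rfl⟩ := hsplit a
    obtain ⟨b2, hb2, ψ, hψ, rfl⟩ := hsplit b
    have h1 : (a2 + φ) * (b2 + ψ) = (a2 * (b2 + ψ) + φ * b2) + φ * ψ := by
      rw [add_mul, mul_add φ, add_assoc]
    rw [h1]
    refine Submodule.add_mem_sup (Submodule.add_mem _ (hl a2 ha2 _) (hr b2 hb2 _)) ?_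
    exact Submodule.apply_mem_map₂ (LinearMap.mul ℂ A) hφ hψ
  have htop : cu3 A ⊔ (G ⊔ F) = ⊤ := by
    rw [eq_top_iff, ← hF.sup_eq_top, ← sup_assoc]
    exact sup_le_sup_right hsq F
  have h2 : Submodule.map (cu3 A).mkQ (G ⊔ F) = ⊤ := by
    have h3 : Submodule.map (cu3 A).mkQ (cu3 A ⊔ (G ⊔ F)) = ⊤ := by
      rw [htop, Submodule.map_top, Submodule.range_mkQ]
    rw [Submodule.map_sup, Submodule.mkQ_map_self, bot_sup_eq] at h3
    exact h3
  have h4 : (⊤ : Submodule ℂ (A ⧸ cu3 A)).FG := by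
    rw [← h2]
    exact (hGfg.sup hFfg).map _
  exact ⟨h4⟩

end Pool.Agent.R233.TR
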