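import Pool.Agent.R233.NA.Tame

/-!
# the tame extension theorem, with the formula for the values on products (TR, EX-1)
-/

open Filter Topology
open scoped ENNReal Cardinal

namespace Pool.Agent.R233.TR

open Pool.Agent.R233.NA

/-- EX-1: as `S_tame`, with the formula for `τ (bt c d)`. -/
def S_tame2 : Prop :=
  ∀ (Ω R B Y : Type) [LinearOrder Ω] [WellFoundedLT Ω]
    [NormedAddCommGroup B] [NormedSpace ℂ B] [CompleteSpace B]
    [NormedAddCommGroup Y] [NormedSpace ℂ Y] [CompleteSpace Y]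
    (f : R → B × lp (fun _ : (Ω × R) × (Ω × R) => ℂ) 1)
    (L : Submodule ℂ B) (t0 : L →ₗ[ℂ] Y),
    (∀ s : Set Ω, s.Countable → ∃ α, ∀ γ ∈ s, γ < α) →
    Function.Surjective f →
    ∃ (τ : (B × lp (fun _ : (Ω × R) × (Ω × R) => ℂ) 1) →ₗ[ℂ] Y)
      (bt : lp (fun _ : Ω × R => ℂ) 1 →L[ℂ] lp (fun _ : Ω × R => ℂ) 1 →L[ℂ]
        (B × lp (fun _ : (Ω × R) × (Ω × R) => ℂ) 1)) (t : Ω × R → Y),
      (∀ b : L, τ ((b : B), 0) = t0 b) ∧
      (∀ l, ‖t l‖ ≤ 1) ∧
      (∀ c d, τ (bt c d) = ∑' l, (c l * d l) • t l) ∧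
      (∀ v, ‖v‖ ≤ 1 → ‖τ v‖ ≤ 1 → ∃ c d, bt c d = v)

theorem s_tame2 (he : S_ext) (hb : S_bh) : S_tame2 := by
  classical
  intro Ω R B Y _ wf _ _ _ _ _ _ f L t0 hcount hf
  set tau : Ω → (B × L1 ((Ω × R) × (Ω × R))) →ₗ[ℂ] Y :=
    wf.wf.fix (stepT f L t0) with htau
  have htau_eq : ∀ α, tau α = stepT f L t0 α (fun γ _ => tau γ) := by
    intro α
    rw [htau, WellFounded.fix_eq]
  -- all levels are good
  have hgood : ∀ α, Good (Prod.fst : Ω × R → Ω) (tX f tau) (tT f tau) L t0 tau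
      (Set.Iio α) (tau α) := by
    intro α
    induction α using wf.wf.induction with
    | _ α ih =>
      set T' : Ω → (B × L1 ((Ω × R) × (Ω × R))) →ₗ[ℂ] Y := trunc α (fun γ _ => tau γ) with hT'
      have hT : ∀ γ, γ < α → T' γ = tau γ := by
        intro γ hγ
        rw [hT', trunc, dif_pos hγ]
      have hex : ∃ σ, Good (Prod.fst : Ω × R → Ω) (tX f T') (tT f T') L t0 T' (Set.Iio α) σ := by
        apply he (Ω × R) Ω B Y Prod.fst (tX f T') (tT f T') L t0 T' (Set.Iio α)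
          (isLowerSet_Iio α) (tX_mem f T') (tX_norm f T') (tT_norm f T') (fun _ _ => rfl)
        intro γ hγ
        rw [hT γ hγ]
        refine Good.congr' (x := tX f tau) (t := tT f tau) (tau := tau) ?_ ?_ ?_ (ih γ hγ)
        · intro l hl
          exact tX_congr f (hT l.1 (lt_trans hl hγ)).symm
        · intro l hl
          exact tT_congr f (hT l.1 (lt_trans hl hγ)).symm
        · intro δ hδ
          exact (hT δ (lt_trans hδ hγ)).symm
      have h1 : Good (Prod.fst : Ω × R → Ω) (tX f T') (tT f T') L t0 T' (Set.Iio α) (tau α) := by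
        rw [htau_eq α, stepT, dif_pos hex]
        exact hex.choose_spec
      refine Good.congr' ?_ ?_ ?_ h1
      · intro l hl
        exact tX_congr f (hT l.1 hl)
      · intro l hl
        exact tT_congr f (hT l.1 hl)
      · intro δ hδ
        exact hT δ hδ
  obtain ⟨τ, hτ⟩ := he (Ω × R) Ω B Y Prod.fst (tX f tau) (tT f tau) L t0 tau Set.univ
    isLowerSet_univ (tX_mem f tau) (tX_norm f tau) (tT_norm f tau) (fun _ _ => rfl)
    (fun γ _ => hgood γ)
  obtain ⟨⟨bt, hbt⟩, hsingle, -, hcoord⟩ := hb (Ω × R) B (tX f tau) (tX_norm f tau)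
  have hsupp : ∀ c : L1 (Ω × R), SuppIn (Prod.fst : Ω × R → Ω) Set.univ c :=
    fun c i _ => Set.mem_univ _
  refine ⟨τ, bt, tT f tau, hτ.base, tT_norm f tau, ?_, ?_⟩
  · intro c d
    rw [hbt, hτ.prod c d (hsupp c) (hsupp d)]
  · intro v hv hτv
    obtain ⟨r, rfl⟩ := hf v
    -- the levels in the support of `v`
    have hcs : (Function.support fun p => (f r).2 p).Countable := by
      have := (l1_summable (f r).2).countable_support
      refine this.mono ?_
      intro p hp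
      rw [Function.mem_support] at hp ⊢
      exact norm_ne_zero_iff.2 hp
    obtain ⟨α, hα⟩ := hcount ((fun p : (Ω × R) × (Ω × R) => p.1.1) ''
      (Function.support fun p => (f r).2 p) ∪ (fun p : (Ω × R) × (Ω × R) => p.2.1) ''
      (Function.support fun p => (f r).2 p)) ((hcs.image _).union (hcs.image _))
    have hlow : f r ∈ lowV (B := B) (Prod.fst : Ω × R → Ω) α := by
      intro i j hij
      exact ⟨hα _ (Or.inl ⟨(i, j), hij, rfl⟩), hα _ (Or.inr ⟨(i, j), hij, rfl⟩)⟩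
    have h1 : tau α (f r) = τ (f r) := (hτ.agree α (Set.mem_univ _) _ hlow).symm
    have h2 : tX f tau (α, r) = f r := by
      unfold tX
      rw [if_pos ⟨hlow, hv, by rw [h1]; exact hτv⟩]
    refine ⟨lp.single 1 (α, r) (1 : ℂ), lp.single 1 (α, r) (1 : ℂ), ?_⟩
    rw [hbt, hsingle, h2]

end Pool.Agent.R233.TR
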