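import Pool.Agent.R233.TR.Stm
import Pool.Agent.R233.TR.Tame2
import Pool.Agent.R233.NA.Ext
import Pool.Agent.R233.NA.Bh
import Pool.Agent.R233.NA.Matrix
import Pool.Agent.R233.NA.Card
import Pool.Agent.R233.NA.Inst

/-!
# EX-2 : data for the example
-/

open Filter Topology
open scoped ENNReal Cardinal

namespace Pool.Agent.R233.TR

namespace ExDataAux

open Pool.Agent.R233.NA Pool.Agent.R233.NA.Inst451

/-- the data, before the normalisation -/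
theorem raw : ∃ (I J : Type) (τ : (B1 × lp (fun _ : J => ℂ) 1) →ₗ[ℂ] ℂ)
    (bt : lp (fun _ : I => ℂ) 1 →L[ℂ] lp (fun _ : I => ℂ) 1 →L[ℂ]
      (B1 × lp (fun _ : J => ℂ) 1)) (t : I → ℂ),
    (∀ c : B1, τ (ub0 c, 0) = sgL c) ∧ (∀ l, ‖t l‖ ≤ 1) ∧
    (∀ c d, τ (bt c d) = ∑' l, (c l * d l) • t l) ∧
    (∀ v, ‖v‖ ≤ 1 → ‖τ v‖ ≤ 1 → ∃ c d, bt c d = v) := by
  have hext := s_ext s_matrix s_bh
  obtain ⟨Ω, lo, wf, hΩ, hb⟩ := s_omega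
  have hc := s_card
  have hJ : #(Ω × ℝ) ≤ 𝔠 := card_prod _ _ hΩ Cardinal.mk_real.le
  have hJJ : #((Ω × ℝ) × (Ω × ℝ)) ≤ 𝔠 := card_prod _ _ hJ hJ
  have hW : #(lp (fun _ : (Ω × ℝ) × (Ω × ℝ) => ℂ) 1) ≤ 𝔠 :=
    hc _ ℂ hJJ Cardinal.mk_complex.le
  have hN : #ℕ ≤ 𝔠 := by
    rw [Cardinal.mk_nat]
    exact Cardinal.aleph0_le_continuum
  have hB1 : #B1 ≤ 𝔠 := hc _ ℂ hN Cardinal.mk_complex.le
  have hM : #(B1 × lp (fun _ : (Ω × ℝ) × (Ω × ℝ) => ℂ) 1) ≤ 𝔠 := card_prod _ _ hB1 hW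
  obtain ⟨f, hf⟩ := surj _ hM
  obtain ⟨τ, bt, t, h1, h2, h3, h4⟩ := s_tame2 hext s_bh Ω ℝ B1 ℂ f
    (Lsub (fun n => (2:ℂ) ^ n) LinearMap.id)
    ((sgL (ι := ℕ)).toLinearMap.comp (tL (fun n => (2:ℂ) ^ n) LinearMap.id)) hb hf
  refine ⟨Ω × ℝ, (Ω × ℝ) × (Ω × ℝ), τ, bt, t, ?_, h2, h3, h4⟩
  intro c
  have hmem : ub0 c ∈ Lsub (fun n => (2:ℂ) ^ n) (LinearMap.id : ℂ →ₗ[ℂ] ℂ) := by
    rw [mem_Lsub]
    refine (summ c).congr (fun n => ?_)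
    rw [ub0_apply, LinearMap.id_apply, ← mul_assoc, ← mul_pow]
    norm_num
  have h5 := h1 ⟨ub0 c, hmem⟩
  refine h5.trans ?_
  show sgL (tL (fun n => (2:ℂ) ^ n) LinearMap.id ⟨ub0 c, hmem⟩) = sgL c
  congr 1
  ext n
  rw [tL_apply]
  show (2:ℂ) ^ n * (ub0 c n) = c n
  rw [ub0_apply, ← mul_assoc, ← mul_pow]
  norm_num

theorem disc {J : Type} (τ : (B1 × lp (fun _ : J => ℂ) 1) →ₗ[ℂ] ℂ)
    (h : ∀ c : B1, τ (ub0 c, 0) = sgL c) : ¬ Continuous τ := by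
  intro hcont
  have h5 : ∀ k : ℕ, ‖ub0 (lp.single 1 k (1:ℂ))‖ = (1 / 2 : ℝ) ^ k := by
    intro k
    rw [ub0_single, lp.norm_single one_pos, mul_one, norm_pow]
    norm_num
  have h6 : Tendsto (fun k : ℕ => ub0 (lp.single 1 k (1:ℂ))) atTop (𝓝 0) := by
    rw [tendsto_zero_iff_norm_tendsto_zero]
    simp only [h5]
    exact tendsto_pow_atTop_nhds_zero_of_lt_one (by norm_num) (by norm_num)
  have h7 : Tendsto (fun k : ℕ => ((ub0 (lp.single 1 k (1:ℂ)), 0) :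
      B1 × lp (fun _ : J => ℂ) 1)) atTop (𝓝 (0, 0)) :=
    h6.prodMk_nhds tendsto_const_nhds
  have h8 := (hcont.tendsto _).comp h7
  have h9 : τ ((0, 0) : B1 × lp (fun _ : J => ℂ) 1) = 0 := map_zero τ
  rw [h9] at h8
  have h10 : (τ ∘ fun k : ℕ => ((ub0 (lp.single 1 k (1:ℂ)), 0) :
      B1 × lp (fun _ : J => ℂ) 1)) = fun _ => (1 : ℂ) := by
    funext k
    show τ (ub0 (lp.single 1 k (1:ℂ)), 0) = 1
    rw [h, sgL_single]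
  rw [h10] at h8
  exact one_ne_zero (tendsto_nhds_unique tendsto_const_nhds h8)

theorem nsg (X Y : Type) [NormedAddCommGroup X] [StarAddMonoid X] [NormedStarGroup X]
    [NormedAddCommGroup Y] [StarAddMonoid Y] [NormedStarGroup Y] : NormedStarGroup (X × Y) where
  norm_star_le x := by
    rw [Prod.norm_def, Prod.norm_def, Prod.fst_star, Prod.snd_star, norm_star, norm_star]

end ExDataAux

open ExDataAux Pool.Agent.R233.NA.Inst451 in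
theorem s_exdata : S_exdata := by
  obtain ⟨I, J, τ, bt, t, h1, h2, h3, h4⟩ := raw
  obtain ⟨K, hK1, hKb⟩ : ∃ K : ℝ, 1 ≤ K ∧ ‖bt‖ ≤ K := ⟨max 1 ‖bt‖, le_max_left _ _, le_max_right _ _⟩
  have hK : 0 < K := lt_of_lt_of_le one_pos hK1
  have hKc : (K : ℂ) ≠ 0 := by exact_mod_cast hK.ne'
  have hKn : ‖(K : ℂ)⁻¹‖ = K⁻¹ := by
    rw [norm_inv, Complex.norm_real, Real.norm_of_nonneg hK.le]
  refine ⟨I, B1 × lp (fun _ : J => ℂ) 1, inferInstance, inferInstance, inferInstance,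
    nsg _ _, inferInstance, inferInstance, τ, (K : ℂ)⁻¹ • bt, fun l => (K : ℂ)⁻¹ * t l,
    disc τ h1, ?_, ?_, ?_, ?_⟩
  · intro l
    rw [norm_mul, hKn]
    have h5 : K⁻¹ ≤ 1 := inv_le_one_of_one_le₀ hK1
    have h6 := h2 l
    have h7 : 0 ≤ K⁻¹ := by positivity
    calc K⁻¹ * ‖t l‖ ≤ 1 * 1 := mul_le_mul h5 h6 (norm_nonneg _) zero_le_one
      _ = 1 := one_mul 1
  · intro c d
    show ‖(K : ℂ)⁻¹ • bt c d‖ ≤ _
    rw [norm_smul, hKn]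
    have h5 : ‖bt c d‖ ≤ K * ‖c‖ * ‖d‖ := by
      refine (bt.le_opNorm₂ c d).trans ?_
      gcongr
    calc K⁻¹ * ‖bt c d‖ ≤ K⁻¹ * (K * ‖c‖ * ‖d‖) := by gcongr
      _ = ‖c‖ * ‖d‖ := by field_simp
  · intro c d
    show τ ((K : ℂ)⁻¹ • bt c d) = _
    rw [map_smul, h3, smul_eq_mul, ← tsum_mul_left]
    refine tsum_congr fun l => ?_
    rw [smul_eq_mul]
    ring
  · intro m
    obtain ⟨s, hs1, hsm, hst⟩ : ∃ s : ℝ, 1 ≤ s ∧ ‖m‖ ≤ s ∧ ‖τ m‖ ≤ s :=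
      ⟨max 1 (max ‖m‖ ‖τ m‖), le_max_left _ _, (le_max_left _ _).trans (le_max_right _ _),
        (le_max_right _ _).trans (le_max_right _ _)⟩
    have hs : 0 < s := lt_of_lt_of_le one_pos hs1
    have hsc : (s : ℂ) ≠ 0 := by exact_mod_cast hs.ne'
    have hsn : ‖(s : ℂ)⁻¹‖ = s⁻¹ := by
      rw [norm_inv, Complex.norm_real, Real.norm_of_nonneg hs.le]
    obtain ⟨c, d, hcd⟩ := h4 ((s : ℂ)⁻¹ • m)
      (by rw [norm_smul, hsn, inv_mul_le_iff₀ hs, mul_one]; exact hsm)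
      (by rw [map_smul, norm_smul, hsn, inv_mul_le_iff₀ hs, mul_one]; exact hst)
    refine ⟨(s : ℂ) * K, c, d, ?_⟩
    show m = ((s : ℂ) * K) • ((K : ℂ)⁻¹ • bt c d)
    have h5 : (s : ℂ) * K * (K : ℂ)⁻¹ * (s : ℂ)⁻¹ = 1 := by
      field_simp
    rw [hcd, smul_smul, smul_smul, h5, one_smul]

end Pool.Agent.R233.TR
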