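import Pool.Agent.R233.TR.Stm

/-!
# EX-3: the example
-/

open Filter Topology

namespace Pool.Agent.R233.TR

namespace EX3

/-! ### the abstract construction -/

/-- data for the construction -/
structure Dat (H P : Type) [NormedAddCommGroup H] [NormedSpace ℂ H] [NormedAddCommGroup P]
    [NormedSpace ℂ P] where
  b : H → H → P
  sH : H → H
  sP : P → P
  b_add : ∀ h h' k, b (h + h') k = b h k + b h' k
  b_add' : ∀ h k k', b h (k + k') = b h k + b h k'
  b_smul : ∀ (c : ℂ) h k, b (c • h) k = c • b h k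
  b_smul' : ∀ (c : ℂ) h k, b h (c • k) = c • b h k
  b_norm : ∀ h k, ‖b h k‖ ≤ ‖h‖ * ‖k‖
  sH_add : ∀ h h', sH (h + h') = sH h + sH h'
  sH_smul : ∀ (c : ℂ) h, sH (c • h) = star c • sH h
  sH_sH : ∀ h, sH (sH h) = h
  sH_norm : ∀ h, ‖sH h‖ ≤ ‖h‖
  sP_add : ∀ h h', sP (h + h') = sP h + sP h'
  sP_smul : ∀ (c : ℂ) h, sP (c • h) = star c • sP h
  sP_sP : ∀ h, sP (sP h) = h
  sP_norm : ∀ h, ‖sP h‖ ≤ ‖h‖
  sb : ∀ h k, sP (b h k) = b (sH k) (sH h)

variable {H P : Type} [NormedAddCommGroup H] [NormedSpace ℂ H] [NormedAddCommGroup P]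
  [NormedSpace ℂ P]

theorem Dat.b_zero (D : Dat H P) (k : H) : D.b 0 k = 0 := by
  have h := D.b_smul 0 0 k
  rwa [zero_smul, zero_smul] at h

theorem Dat.b_zero' (D : Dat H P) (h : H) : D.b h 0 = 0 := by
  have h1 := D.b_smul' 0 h 0
  rwa [zero_smul, zero_smul] at h1

/-- the algebra -/
def AA (_ : Dat H P) : Type := H × ℂ × H × P

variable (D : Dat H P)

noncomputable instance : NormedAddCommGroup (AA D) :=
  inferInstanceAs (NormedAddCommGroup (H × ℂ × H × P))

noncomputable instance : NormedSpace ℂ (AA D) := inferInstanceAs (NormedSpace ℂ (H × ℂ × H × P))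

instance [CompleteSpace H] [CompleteSpace P] : CompleteSpace (AA D) :=
  inferInstanceAs (CompleteSpace (H × ℂ × H × P))

variable {D}

theorem AA.ext' {x y : AA D} (h1 : x.1 = y.1) (h2 : x.2.1 = y.2.1) (h3 : x.2.2.1 = y.2.2.1)
    (h4 : x.2.2.2 = y.2.2.2) : x = y := Prod.ext h1 (Prod.ext h2 (Prod.ext h3 h4))

theorem norm_le_iff {x : AA D} {r : ℝ} :
    ‖x‖ ≤ r ↔ ‖x.1‖ ≤ r ∧ ‖x.2.1‖ ≤ r ∧ ‖x.2.2.1‖ ≤ r ∧ ‖x.2.2.2‖ ≤ r := by
  change max ‖x.1‖ (max ‖x.2.1‖ (max ‖x.2.2.1‖ ‖x.2.2.2‖)) ≤ r ↔ _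
  simp only [max_le_iff]

/-- the multiplication -/
noncomputable def mulA (x y : AA D) : AA D :=
  ((y.2.1 • x.1, x.2.1 * y.2.1, x.2.1 • y.2.2.1, D.b x.1 y.2.2.1) : H × ℂ × H × P)

/-- the involution -/
noncomputable def starA (x : AA D) : AA D :=
  ((D.sH x.2.2.1, star x.2.1, D.sH x.1, D.sP x.2.2.2) : H × ℂ × H × P)

theorem norm_mulA (x y : AA D) : ‖mulA x y‖ ≤ ‖x‖ * ‖y‖ := by
  obtain ⟨x1, x2, x3, x4⟩ := norm_le_iff.1 (le_refl ‖x‖)
  obtain ⟨y1, y2, y3, y4⟩ := norm_le_iff.1 (le_refl ‖y‖)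
  rw [norm_le_iff]
  refine ⟨?_, ?_, ?_, ?_⟩
  · change ‖y.2.1 • x.1‖ ≤ _
    rw [norm_smul, mul_comm]
    exact mul_le_mul x1 y2 (norm_nonneg _) (norm_nonneg _)
  · change ‖x.2.1 * y.2.1‖ ≤ _
    rw [norm_mul]
    exact mul_le_mul x2 y2 (norm_nonneg _) (norm_nonneg _)
  · change ‖x.2.1 • y.2.2.1‖ ≤ _
    rw [norm_smul]
    exact mul_le_mul x2 y3 (norm_nonneg _) (norm_nonneg _)
  · change ‖D.b x.1 y.2.2.1‖ ≤ _
    exact (D.b_norm _ _).trans (mul_le_mul x1 y3 (norm_nonneg _) (norm_nonneg _))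

noncomputable instance : NonUnitalNormedRing (AA D) :=
  { (inferInstance : NormedAddCommGroup (AA D)) with
    mul := mulA
    left_distrib := fun x y z => AA.ext' (add_smul y.2.1 z.2.1 x.1) (mul_add x.2.1 y.2.1 z.2.1)
      (smul_add x.2.1 y.2.2.1 z.2.2.1) (D.b_add' x.1 y.2.2.1 z.2.2.1)
    right_distrib := fun x y z => AA.ext' (smul_add z.2.1 x.1 y.1) (add_mul x.2.1 y.2.1 z.2.1)
      (add_smul x.2.1 y.2.1 z.2.2.1) (D.b_add x.1 y.1 z.2.2.1)
    zero_mul := fun x => AA.ext' (smul_zero x.2.1) (zero_mul x.2.1) (zero_smul ℂ x.2.2.1)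
      (D.b_zero x.2.2.1)
    mul_zero := fun x => AA.ext' (zero_smul ℂ x.1) (mul_zero x.2.1) (smul_zero x.2.1)
      (D.b_zero' x.1)
    mul_assoc := fun x y z => AA.ext'
      (by
        change z.2.1 • (y.2.1 • x.1) = (y.2.1 * z.2.1) • x.1
        rw [smul_smul, mul_comm])
      (mul_assoc x.2.1 y.2.1 z.2.1)
      (mul_smul x.2.1 y.2.1 z.2.2.1)
      (by
        change D.b (y.2.1 • x.1) z.2.2.1 = D.b x.1 (y.2.1 • z.2.2.1)
        rw [D.b_smul, D.b_smul'])
    norm_mul_le := norm_mulA }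

instance : IsScalarTower ℂ (AA D) (AA D) :=
  ⟨fun c x y => AA.ext'
    (by
      change y.2.1 • (c • x.1) = c • (y.2.1 • x.1)
      rw [smul_comm])
    (by
      change (c * x.2.1) * y.2.1 = c * (x.2.1 * y.2.1)
      rw [mul_assoc])
    (by
      change (c * x.2.1) • y.2.2.1 = c • (x.2.1 • y.2.2.1)
      rw [mul_smul])
    (D.b_smul c x.1 y.2.2.1)⟩

instance : SMulCommClass ℂ (AA D) (AA D) :=
  ⟨fun c x y => AA.ext'
    (by
      change c • (y.2.1 • x.1) = (c * y.2.1) • x.1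
      rw [mul_smul])
    (by
      change c * (x.2.1 * y.2.1) = x.2.1 * (c * y.2.1)
      ring)
    (by
      change c • (x.2.1 • y.2.2.1) = x.2.1 • (c • y.2.2.1)
      rw [smul_comm])
    (D.b_smul' c x.1 y.2.2.1).symm⟩

noncomputable instance : StarRing (AA D) where
  star := starA
  star_involutive := fun x => AA.ext' (D.sH_sH x.1) (star_star x.2.1) (D.sH_sH x.2.2.1)
    (D.sP_sP x.2.2.2)
  star_mul := fun x y => AA.ext' (D.sH_smul x.2.1 y.2.2.1) (star_mul x.2.1 y.2.1)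
    (D.sH_smul y.2.1 x.1) (D.sb x.1 y.2.2.1)
  star_add := fun x y => AA.ext' (D.sH_add x.2.2.1 y.2.2.1) (star_add x.2.1 y.2.1)
    (D.sH_add x.1 y.1) (D.sP_add x.2.2.2 y.2.2.2)

instance : StarModule ℂ (AA D) :=
  ⟨fun c x => AA.ext' (D.sH_smul c x.2.2.1) (by
      change star (c * x.2.1) = star c * star x.2.1
      rw [star_mul, mul_comm])
    (D.sH_smul c x.1) (D.sP_smul c x.2.2.2)⟩

instance : NormedStarGroup (AA D) :=
  ⟨fun x => by
    obtain ⟨x1, x2, x3, x4⟩ := norm_le_iff.1 (le_refl ‖x‖)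
    refine norm_le_iff.2 ⟨(D.sH_norm _).trans x3, ?_, (D.sH_norm _).trans x1,
      (D.sP_norm _).trans x4⟩
    change ‖star x.2.1‖ ≤ _
    rw [norm_star]
    exact x2⟩

/-- elements -/
def el (D : Dat H P) (h : H) (z : ℂ) (k : H) (m : P) : AA D := ((h, z, k, m) : H × ℂ × H × P)

theorem el_mul (h h' k k' : H) (z z' : ℂ) (m m' : P) :
    el D h z k m * el D h' z' k' m' = el D (z' • h) (z * z') (z • k') (D.b h k') := rfl

theorem el_add (h h' k k' : H) (z z' : ℂ) (m m' : P) :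
    el D h z k m + el D h' z' k' m' = el D (h + h') (z + z') (k + k') (m + m') := rfl

theorem el_smul (c : ℂ) (h k : H) (z : ℂ) (m : P) :
    c • el D h z k m = el D (c • h) (c * z) (c • k) (c • m) := rfl

theorem mem_mul (x y : AA D) : x * y ∈ sq2 (AA D) := Submodule.subset_span ⟨x, y, rfl⟩

theorem el_mem {m : P} (hm : m ∈ Submodule.span ℂ {p | ∃ h k, p = D.b h k}) :
    el D 0 0 0 m ∈ sq2 (AA D) := by
  induction hm using Submodule.span_induction with
  | mem p hp =>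
    obtain ⟨h, k, rfl⟩ := hp
    have : el D 0 0 0 (D.b h k) = el D h 0 0 0 * el D 0 0 k 0 := by
      rw [el_mul]
      simp
    rw [this]
    exact mem_mul _ _
  | zero => exact Submodule.zero_mem _
  | add p q _ _ hp hq =>
    have : el D 0 0 0 (p + q) = el D 0 0 0 p + el D 0 0 0 q := by
      rw [el_add]
      simp
    rw [this]
    exact Submodule.add_mem _ hp hq
  | smul c p _ hp =>
    have : el D 0 0 0 (c • p) = c • el D 0 0 0 p := by
      rw [el_smul]
      simp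
    rw [this]
    exact Submodule.smul_mem _ _ hp

theorem sq2_top (hP : ∀ m : P, m ∈ Submodule.span ℂ {p | ∃ h k, p = D.b h k}) :
    sq2 (AA D) = ⊤ := by
  rw [eq_top_iff]
  intro x _
  have e : x = el D x.1 0 0 0 * el D 0 1 0 0 + el D 0 x.2.1 0 0 * el D 0 1 0 0 +
      el D 0 1 0 0 * el D 0 0 x.2.2.1 0 + el D 0 0 0 x.2.2.2 := by
    rw [el_mul, el_mul, el_mul, el_add, el_add, el_add]
    refine AA.ext' ?_ ?_ ?_ ?_
    · simp
      rfl
    · simp
      rfl
    · simp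
      rfl
    · rw [D.b_zero', D.b_zero', D.b_zero]
      simp
      rfl
  rw [e]
  exact Submodule.add_mem _ (Submodule.add_mem _ (Submodule.add_mem _ (mem_mul _ _)
    (mem_mul _ _)) (mem_mul _ _)) (el_mem (hP _))

/-! ### the bilinear form on `ℓ¹` -/

section

variable {I : Type}

theorem sm (d : L1 I) : Summable fun l => ‖d l‖ := by
  have h := (lp.memℓp d).summable (by simp : 0 < (1 : ENNReal).toReal)
  simpa using h

theorem nm1 (d : L1 I) : ‖d‖ = ∑' l, ‖d l‖ := by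
  rw [lp.norm_eq_tsum_rpow (by simp) d]
  simp

theorem le_nm (c : L1 I) (l : I) : ‖c l‖ ≤ ‖c‖ := lp.norm_apply_le_norm one_ne_zero c l

theorem sm3 (c d : L1 I) : Summable fun l => ‖c l‖ * ‖d l‖ := by
  refine Summable.of_nonneg_of_le (fun l => by positivity) (fun l => ?_) ((sm d).mul_left ‖c‖)
  exact mul_le_mul_of_nonneg_right (le_nm c l) (norm_nonneg _)

theorem sm2 (c d : L1 I) : Summable fun l => c l * d l :=
  Summable.of_norm_bounded (sm3 c d) fun l => by rw [norm_mul]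

/-- the bilinear form -/
noncomputable def ip (c d : L1 I) : ℂ := ∑' l, c l * d l

theorem ip_norm (c d : L1 I) : ‖ip c d‖ ≤ ‖c‖ * ‖d‖ := by
  unfold ip
  have h1 : Summable fun l => ‖c l * d l‖ := by
    simp only [norm_mul]
    exact sm3 c d
  refine (norm_tsum_le_tsum_norm h1).trans ?_
  rw [nm1 d, ← tsum_mul_left]
  refine h1.tsum_le_tsum (fun l => ?_) ((sm d).mul_left ‖c‖)
  rw [norm_mul]
  exact mul_le_mul_of_nonneg_right (le_nm c l) (norm_nonneg _)

theorem ip_add (c c' d : L1 I) : ip (c + c') d = ip c d + ip c' d := by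
  unfold ip
  rw [← (sm2 c d).tsum_add (sm2 c' d)]
  refine tsum_congr fun l => ?_
  rw [lp.coeFn_add, Pi.add_apply, add_mul]

theorem ip_comm (c d : L1 I) : ip c d = ip d c := tsum_congr fun _ => mul_comm _ _

theorem ip_smul (r : ℂ) (c d : L1 I) : ip (r • c) d = r * ip c d := by
  unfold ip
  rw [← tsum_mul_left]
  refine tsum_congr fun l => ?_
  rw [lp.coeFn_smul, Pi.smul_apply, smul_eq_mul, mul_assoc]

theorem ip_zero (d : L1 I) : ip 0 d = 0 := by
  have h := ip_smul 0 0 d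
  rwa [zero_smul, zero_mul] at h

theorem ip_zero' (d : L1 I) : ip d 0 = 0 := by rw [ip_comm, ip_zero]

theorem ip_star (c d : L1 I) : star (ip c d) = ip (star d) (star c) := by
  unfold ip
  rw [tsum_star]
  refine tsum_congr fun l => ?_
  rw [star_mul, lp.star_apply, lp.star_apply]

theorem ip_self (c : L1 I) : ip (star c) c = ((∑' l, ‖c l‖ ^ 2 : ℝ) : ℂ) := by
  unfold ip
  rw [Complex.ofReal_tsum]
  refine tsum_congr fun l => ?_
  rw [lp.star_apply]
  have h := Complex.conj_mul' (c l)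
  rw [Complex.star_def, h]
  push_cast
  rfl

theorem sm4 (c : L1 I) : Summable fun l => ‖c l‖ ^ 2 := by
  have h := sm3 c c
  simpa only [sq] using h

end

/-! ### the data -/

section

variable {I M : Type} [NormedAddCommGroup M] [NormedSpace ℂ M] [StarAddMonoid M]
  [NormedStarGroup M] [StarModule ℂ M]

/-- the data of the example -/
noncomputable def dat (bt : L1 I →L[ℂ] L1 I →L[ℂ] M) (hbt : ∀ c d, ‖bt c d‖ ≤ ‖c‖ * ‖d‖) :
    Dat (L1 I × L1 I) (M × M × ℂ) where
  b h k := (1 / 2 : ℂ) • ((bt h.1 k.2, star (bt (star k.1) (star h.2)),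
    ip h.1 k.1 + ip h.2 k.2) : M × M × ℂ)
  sH h := (star h.1, star h.2)
  sP p := (star p.2.1, star p.1, star p.2.2)
  b_add h h' k := by
    rw [← smul_add]
    congr 1
    refine Prod.ext ?_ (Prod.ext ?_ ?_)
    · simp
    · simp
    · simp only [Prod.fst_add, Prod.snd_add, ip_add]
      ring
  b_add' h k k' := by
    rw [← smul_add]
    congr 1
    refine Prod.ext ?_ (Prod.ext ?_ ?_)
    · simp
    · simp
    · simp only [Prod.fst_add, Prod.snd_add, ip_comm h.1, ip_comm h.2, ip_add]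
      ring
  b_smul c h k := by
    rw [smul_comm]
    congr 1
    refine Prod.ext ?_ (Prod.ext ?_ ?_)
    · simp
    · simp
    · simp only [Prod.smul_fst, Prod.smul_snd, ip_smul, smul_eq_mul]
      ring
  b_smul' c h k := by
    rw [smul_comm]
    congr 1
    refine Prod.ext ?_ (Prod.ext ?_ ?_)
    · simp
    · simp
    · simp only [Prod.smul_fst, Prod.smul_snd, ip_comm h.1, ip_comm h.2, ip_smul, smul_eq_mul]
      ring
  b_norm h k := by
    have h1 := norm_fst_le h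
    have h2 := norm_snd_le h
    have k1 := norm_fst_le k
    have k2 := norm_snd_le k
    have e : ‖(1 / 2 : ℂ)‖ = 1 / 2 := by norm_num
    have key : ‖((bt h.1 k.2, star (bt (star k.1) (star h.2)),
        ip h.1 k.1 + ip h.2 k.2) : M × M × ℂ)‖ ≤ 2 * (‖h‖ * ‖k‖) := by
      have hk : 0 ≤ ‖h‖ * ‖k‖ := by positivity
      refine max_le ?_ (max_le ?_ ?_)
      · refine (hbt _ _).trans ?_
        have := mul_le_mul h1 k2 (norm_nonneg _) (norm_nonneg _)
        change ‖h.1‖ * ‖k.2‖ ≤ _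
        linarith
      · change ‖star (bt (star k.1) (star h.2))‖ ≤ _
        rw [norm_star]
        refine (hbt _ _).trans ?_
        rw [norm_star, norm_star]
        have := mul_le_mul k1 h2 (norm_nonneg _) (norm_nonneg _)
        nlinarith
      · change ‖ip h.1 k.1 + ip h.2 k.2‖ ≤ _
        refine (norm_add_le _ _).trans ?_
        have a1 := (ip_norm h.1 k.1).trans (mul_le_mul h1 k1 (norm_nonneg _) (norm_nonneg _))
        have a2 := (ip_norm h.2 k.2).trans (mul_le_mul h2 k2 (norm_nonneg _) (norm_nonneg _))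
        linarith
    rw [norm_smul, e]
    linarith
  sH_add h h' := by
    refine Prod.ext ?_ ?_
    · simp
    · simp
  sH_smul c h := by
    refine Prod.ext ?_ ?_
    · simp
    · simp
  sH_sH h := by simp
  sH_norm h := by
    refine max_le ?_ ?_
    · change ‖star h.1‖ ≤ _
      rw [norm_star]
      exact norm_fst_le h
    · change ‖star h.2‖ ≤ _
      rw [norm_star]
      exact norm_snd_le h
  sP_add p q := by
    refine Prod.ext ?_ (Prod.ext ?_ ?_)
    · simp
    · simp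
    · simp
  sP_smul c p := by
    refine Prod.ext ?_ (Prod.ext ?_ ?_)
    · simp
    · simp
    · simp
  sP_sP p := by simp
  sP_norm p := by
    have h1 := norm_fst_le p
    have h2 := norm_snd_le p
    have h3 := norm_fst_le p.2
    have h4 := norm_snd_le p.2
    refine max_le ?_ (max_le ?_ ?_)
    · change ‖star p.2.1‖ ≤ _
      rw [norm_star]
      linarith
    · change ‖star p.1‖ ≤ _
      rw [norm_star]
      linarith
    · change ‖star p.2.2‖ ≤ _
      rw [norm_star]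
      linarith
  sb h k := by
    refine Prod.ext ?_ (Prod.ext ?_ ?_)
    · simp
    · simp
    · simp only [Prod.smul_snd, star_smul, star_add, ip_star]
      simp

theorem dat_b (bt : L1 I →L[ℂ] L1 I →L[ℂ] M) (hbt : ∀ c d, ‖bt c d‖ ≤ ‖c‖ * ‖d‖)
    (h k : L1 I × L1 I) : (dat bt hbt).b h k =
      (1 / 2 : ℂ) • ((bt h.1 k.2, star (bt (star k.1) (star h.2)),
        ip h.1 k.1 + ip h.2 k.2) : M × M × ℂ) := rfl

theorem hP_dat (bt : L1 I →L[ℂ] L1 I →L[ℂ] M) (hbt : ∀ c d, ‖bt c d‖ ≤ ‖c‖ * ‖d‖)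
    (hI : Nonempty I) (hM : ∀ m : M, ∃ (r : ℂ) (c d : L1 I), m = r • bt c d) (m : M × M × ℂ) :
    m ∈ Submodule.span ℂ {p | ∃ h k, p = (dat bt hbt).b h k} := by
  classical
  obtain ⟨m1, m2, w⟩ := m
  obtain ⟨r, c, d, hm1⟩ := hM m1
  obtain ⟨r', c', d', hm2⟩ := hM (star m2)
  obtain ⟨l⟩ := hI
  obtain ⟨δ, hδ⟩ : ∃ δ : L1 I, δ = lp.single 1 l 1 := ⟨_, rfl⟩
  have hm2' : m2 = star r' • star (bt c' d') := by
    rw [← star_smul, ← hm2, star_star]
  have hip : ip δ δ = 1 := by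
    unfold ip
    rw [tsum_eq_single l]
    · rw [hδ, lp.single_apply_self, mul_one]
    · intro j hj
      rw [hδ, lp.single_apply_ne _ _ _ hj, mul_zero]
  have e : ((m1, m2, w) : M × M × ℂ) = (2 * r) • (dat bt hbt).b (c, 0) (0, d) +
      (2 * star r') • (dat bt hbt).b (0, star d') (star c', 0) +
      (2 * w) • (dat bt hbt).b (δ, 0) (δ, 0) := by
    rw [dat_b, dat_b, dat_b, smul_smul, smul_smul, smul_smul]
    have a1 : 2 * r * (1 / 2) = r := by ring
    have a2 : 2 * star r' * (1 / 2) = star r' := by ring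
    have a3 : 2 * w * (1 / 2) = w := by ring
    rw [a1, a2, a3]
    refine Prod.ext ?_ (Prod.ext ?_ ?_)
    · simp [hm1]
    · simp [hm2']
    · simp [hip, ip_zero, ip_zero']
  rw [e]
  refine Submodule.add_mem _ (Submodule.add_mem _ ?_ ?_) ?_
  · exact Submodule.smul_mem _ _ (Submodule.subset_span ⟨_, _, rfl⟩)
  · exact Submodule.smul_mem _ _ (Submodule.subset_span ⟨_, _, rfl⟩)
  · exact Submodule.smul_mem _ _ (Submodule.subset_span ⟨_, _, rfl⟩)

/-- the functional -/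
noncomputable def ff (τ : M →ₗ[ℂ] ℂ) (D : Dat (L1 I × L1 I) (M × M × ℂ)) : AA D →ₗ[ℂ] ℂ where
  toFun x := τ x.2.2.2.1 + star (τ (star x.2.2.2.2.1)) + x.2.2.2.2.2
  map_add' x y := by
    change τ (x.2.2.2.1 + y.2.2.2.1) + star (τ (star (x.2.2.2.2.1 + y.2.2.2.2.1))) +
      (x.2.2.2.2.2 + y.2.2.2.2.2) = _
    rw [map_add, star_add, map_add, star_add]
    ring
  map_smul' c x := by
    change τ (c • x.2.2.2.1) + star (τ (star (c • x.2.2.2.2.1))) + (c • x.2.2.2.2.2) = _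
    rw [map_smul, star_smul, map_smul, star_smul, star_star]
    simp only [smul_eq_mul, RingHom.id_apply]
    ring

theorem ff_pos (bt : L1 I →L[ℂ] L1 I →L[ℂ] M) (hbt : ∀ c d, ‖bt c d‖ ≤ ‖c‖ * ‖d‖)
    (τ : M →ₗ[ℂ] ℂ) (t : I → ℂ) (ht : ∀ l, ‖t l‖ ≤ 1)
    (hτ : ∀ c d, τ (bt c d) = ∑' l, c l * d l * t l) : Positive (ff τ (dat bt hbt)) := by
  intro a
  obtain ⟨c, hc⟩ : ∃ c, c = a.2.2.1.1 := ⟨_, rfl⟩
  obtain ⟨d, hd⟩ : ∃ d, d = a.2.2.1.2 := ⟨_, rfl⟩
  obtain ⟨S, hS⟩ : ∃ S : ℝ, S = ∑' l, ‖c l‖ ^ 2 + ∑' l, ‖d l‖ ^ 2 := ⟨_, rfl⟩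
  obtain ⟨T, hT⟩ : ∃ T, T = τ (bt (star c) d) := ⟨_, rfl⟩
  have h1 : (star a * a).2.2.2 = (1 / 2 : ℂ) • ((bt (star c) d, star (bt (star c) (star (star d))),
      ip (star c) c + ip (star d) d) : M × M × ℂ) := by
    rw [hc, hd]
    rfl
  have h2 : ff τ (dat bt hbt) (star a * a) = (1 / 2 : ℂ) * (T + star T + (S : ℂ)) := by
    change τ (star a * a).2.2.2.1 + star (τ (star (star a * a).2.2.2.2.1)) +
      (star a * a).2.2.2.2.2 = _
    rw [h1]
    have hh : star (1 / 2 : ℂ) = 1 / 2 := by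
      rw [Complex.star_def, map_div₀, map_one, Complex.conj_ofNat]
    simp only [Prod.smul_fst, Prod.smul_snd, star_smul, star_star, map_smul, ip_self, ← hT,
      smul_eq_mul, star_mul', hh]
    rw [hS, Complex.ofReal_add]
    ring
  have h3 : ‖T‖ ≤ S / 2 := by
    rw [hT, hτ]
    have g1 : ∀ l, ‖(star c) l * d l * t l‖ ≤ ‖c l‖ * ‖d l‖ := by
      intro l
      rw [norm_mul, norm_mul, lp.star_apply, norm_star]
      have := ht l
      have h5 : 0 ≤ ‖c l‖ * ‖d l‖ := by positivity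
      nlinarith
    have g2 : Summable fun l => ‖(star c) l * d l * t l‖ :=
      Summable.of_nonneg_of_le (fun l => norm_nonneg _) g1 (sm3 c d)
    refine (norm_tsum_le_tsum_norm g2).trans ((g2.tsum_le_tsum g1 (sm3 c d)).trans ?_)
    have g3 : Summable fun l => (‖c l‖ ^ 2 + ‖d l‖ ^ 2) / 2 := ((sm4 c).add (sm4 d)).div_const 2
    refine ((sm3 c d).tsum_le_tsum (fun l => ?_) g3).trans (le_of_eq ?_)
    · nlinarith [sq_nonneg (‖c l‖ - ‖d l‖)]
    · rw [tsum_div_const, (sm4 c).tsum_add (sm4 d), hS]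
  have h4 : T + star T = ((2 * T.re : ℝ) : ℂ) := by
    rw [Complex.star_def, Complex.add_conj]
  have h5 : ff τ (dat bt hbt) (star a * a) = ((T.re + S / 2 : ℝ) : ℂ) := by
    rw [h2, h4]
    push_cast
    ring
  rw [h5]
  refine ⟨?_, Complex.ofReal_im _⟩
  rw [Complex.ofReal_re]
  have h6 := Complex.abs_re_le_norm T
  have h7 := neg_abs_le T.re
  linarith

end

end EX3

open EX3

theorem s_example (h : S_exdata) : S_example := by
  obtain ⟨I, M, i1, i2, i3, i4, i5, i6, τ, bt, t, hτ, ht, hbt, hτb, hM⟩ := h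
  have hI : Nonempty I := by
    by_contra hI
    rw [not_nonempty_iff] at hI
    have h1 : ∀ c : L1 I, c = 0 := fun c => by
      apply lp.ext
      funext l
      exact hI.elim l
    have h2 : ∀ m : M, m = 0 := by
      intro m
      obtain ⟨r, c, d, hm⟩ := hM m
      rw [hm, h1 c, map_zero]
      simp
    apply hτ
    have h3 : (τ : M → ℂ) = fun _ => 0 := by
      funext m
      rw [h2 m, map_zero]
    rw [h3]
    exact continuous_const
  refine ⟨AA (dat bt hbt), inferInstance, inferInstance, inferInstance, inferInstance,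
    inferInstance, inferInstance, inferInstance, inferInstance, ff τ _,
    sq2_top (hP_dat bt hbt hI hM), ff_pos bt hbt τ t ht hτb, fun hcont => hτ ?_⟩
  have h1 : Continuous (fun m : M => (el (dat bt hbt) 0 0 0 (m, 0, 0) : AA (dat bt hbt))) := by
    change Continuous (fun m : M => ((0, 0, 0, (m, 0, 0)) :
      (L1 I × L1 I) × ℂ × (L1 I × L1 I) × (M × M × ℂ)))
    fun_prop
  have h2 := hcont.comp h1
  refine h2.congr fun m => ?_
  change τ m + star (τ (star (0 : M))) + 0 = τ m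
  simp

end Pool.Agent.R233.TR
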