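import Pool.Agent.R233.TR.Stm

/-!
# TR-4: an almost hermitian operator is bounded by the norm
-/

open Filter Topology

namespace Pool.Agent.R233.TR

universe u

theorem s_fest (h1 : S_cs.{u}) (h3 : S_kap.{u}) : S_fest.{u} := by
  intro A _ _ _ _ _ _ _ f hf z h hh hzh
  obtain ⟨n0, n2, n3, n4, n5, n6⟩ := h1 A f hf
  have n7 := h3 A f hf
  have neg : ∀ a, sn f (-a) = sn f a := by
    intro a
    have := n6 (-1) a
    simpa using this
  have subl : ∀ a b, sn f (a - b) ≤ sn f a + sn f b := by
    intro a b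
    have := n5 a (-b)
    rwa [neg, ← sub_eq_add_neg] at this
  have eqof : ∀ a b, sn f (a - b) = 0 → sn f a = sn f b := by
    intro a b hab
    apply le_antisymm
    · have := n5 (a - b) b
      rw [sub_add_cancel, hab, zero_add] at this
      exact this
    · have := subl a (a - b)
      rw [sub_sub_cancel, hab, add_zero] at this
      exact this
  have hN : ∀ a, sn f (z * a) = sn f (h * a) := by
    intro a
    refine eqof _ _ ?_
    rw [← sub_mul]
    exact hzh a
  obtain ⟨Sset, hS⟩ : ∃ Sset : Set ℝ,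
    Sset = {c : ℝ | 0 ≤ c ∧ ∀ a, sn f (h * a) ≤ c * sn f a} := ⟨_, rfl⟩
  have hSne : Sset.Nonempty := ⟨Real.sqrt ‖star h * h‖, by
    rw [hS]
    exact ⟨Real.sqrt_nonneg _, n7 h⟩⟩
  have hSb : BddBelow Sset := ⟨0, by
    rw [hS]
    rintro c ⟨hc, -⟩
    exact hc⟩
  obtain ⟨t, ht⟩ : ∃ t, t = sInf Sset := ⟨_, rfl⟩
  have ht0 : 0 ≤ t := by
    rw [ht]
    refine le_csInf hSne (fun c hc => ?_)
    rw [hS] at hc
    exact hc.1
  have htb : ∀ a, sn f (h * a) ≤ t * sn f a := by
    intro a
    rcases (n0 a).eq_or_lt with h0 | h0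
    · obtain ⟨c, hc⟩ := hSne
      rw [hS] at hc
      have := hc.2 a
      rw [← h0] at this ⊢
      simpa using this
    · rw [← div_le_iff₀ h0, ht]
      refine le_csInf hSne (fun c hc => ?_)
      rw [hS] at hc
      rw [div_le_iff₀ h0]
      exact hc.2 a
  have hmain : t ≤ ‖z‖ := by
    by_contra hcon
    push Not at hcon
    have htpos : 0 < t := lt_of_le_of_lt (norm_nonneg z) hcon
    obtain ⟨c, hc⟩ : ∃ c : ℂ, c = ((t ^ 2 : ℝ) : ℂ) := ⟨_, rfl⟩
    have hc0 : c ≠ 0 := by
      rw [hc]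
      exact_mod_cast (pow_pos htpos 2).ne'
    have hcn : ‖c‖ = t ^ 2 := by
      rw [hc, Complex.norm_real, Real.norm_of_nonneg (by positivity)]
    have hcs : (starRingEnd ℂ) c = c := by rw [hc, Complex.conj_ofReal]
    obtain ⟨u, hu⟩ : ∃ u : A, u = c⁻¹ • (z * z) := ⟨_, rfl⟩
    have hu1 : ‖u‖ < 1 := by
      rw [hu, norm_smul, norm_inv, hcn, inv_mul_lt_iff₀ (by positivity), mul_one]
      calc ‖z * z‖ ≤ ‖z‖ * ‖z‖ := norm_mul_le _ _
        _ < t ^ 2 := by nlinarith [norm_nonneg z]
    obtain ⟨q, hq⟩ : ∃ q : A, u + q * u = q := by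
      have hcw : ContractingWith ⟨‖u‖, norm_nonneg u⟩ (fun x : A => u + x * u) := by
        refine ⟨by exact_mod_cast hu1, LipschitzWith.of_dist_le_mul (fun x y => ?_)⟩
        rw [dist_eq_norm, dist_eq_norm]
        have : u + x * u - (u + y * u) = (x - y) * u := by rw [sub_mul]; abel
        rw [this, mul_comm _ ‖x - y‖]
        exact norm_mul_le _ _
      exact ⟨ContractingWith.fixedPoint _ hcw, hcw.fixedPoint_isFixedPt⟩
    obtain ⟨s, hs⟩ : ∃ s : ℝ, s = 1 / (4 * (1 + Real.sqrt ‖star q * q‖)) := ⟨_, rfl⟩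
    have hsq := Real.sqrt_nonneg ‖star q * q‖
    have hs0 : 0 < s := by rw [hs]; positivity
    have hs1 : s ≤ 1 / 4 := by
      rw [hs]
      refine one_div_le_one_div_of_le (by norm_num) (by linarith)
    have hs2 : (1 + Real.sqrt ‖star q * q‖) * (2 * s) = 1 / 2 := by
      rw [hs]
      field_simp
      norm_num
    obtain ⟨a, ha⟩ : ∃ a, (1 - s ^ 2) * t * sn f a < sn f (h * a) := by
      by_contra hcon2
      push Not at hcon2
      have hin : (1 - s ^ 2) * t ∈ Sset := by
        rw [hS]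
        exact ⟨mul_nonneg (by nlinarith) ht0, hcon2⟩
      have := csInf_le hSb hin
      rw [← ht] at this
      have : 0 < s ^ 2 * t := by positivity
      nlinarith
    have hna : 0 < sn f a := by
      rcases (n0 a).eq_or_lt with h0 | h0
      · exfalso
        have := htb a
        rw [← h0, mul_zero] at this ha
        linarith
      · exact h0
    obtain ⟨w, hw⟩ : ∃ w, w = h * (h * a) := ⟨_, rfl⟩
    have hwN : sn f w ≤ t * (t * sn f a) := by
      rw [hw]
      exact (htb _).trans (mul_le_mul_of_nonneg_left (htb a) ht0)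
    have haw : f (star a * w) = ((sn f (h * a) ^ 2 : ℝ) : ℂ) := by
      rw [← n2, star_mul, hh, hw, mul_assoc]
    have hwa : f (star w * a) = ((sn f (h * a) ^ 2 : ℝ) : ℂ) := by
      rw [n3 a w, haw, Complex.conj_ofReal]
    have hdist : sn f (w - c • a) ^ 2 =
        sn f w ^ 2 - 2 * t ^ 2 * sn f (h * a) ^ 2 + t ^ 4 * sn f a ^ 2 := by
      have e1 := n2 (w - c • a)
      have e2 : star (w - c • a) * (w - c • a) =
          star w * w - c • (star w * a) - c • (star a * w) + (c * c) • (star a * a) := by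
        rw [star_sub, star_smul]
        have : star c = c := hcs
        rw [this, sub_mul, mul_sub, mul_sub, mul_smul_comm, smul_mul_assoc, smul_mul_assoc,
          mul_smul_comm, smul_smul]
        abel
      rw [e2, map_add, map_sub, map_sub, map_smul, map_smul, map_smul, haw, hwa, n2, n2] at e1
      simp only [smul_eq_mul] at e1
      rw [hc] at e1
      have e3 : ((sn f (w - c • a) ^ 2 : ℝ) : ℂ) =
          ((sn f w ^ 2 - 2 * t ^ 2 * sn f (h * a) ^ 2 + t ^ 4 * sn f a ^ 2 : ℝ) : ℂ) := by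
        rw [hc, ← e1]
        push_cast
        ring
      exact_mod_cast e3
    -- replace `h` by `z`
    have hzz : sn f (z * (z * a) - c • a) = sn f (w - c • a) := by
      refine eqof _ _ ?_
      have e1 : z * (z * a) - c • a - (w - c • a) = z * ((z - h) * a) + (z - h) * (h * a) := by
        rw [hw, sub_mul, mul_sub, sub_mul]
        abel
      rw [e1]
      have e2 : sn f (z * ((z - h) * a)) ≤ 0 := by
        refine (n7 z _).trans ?_
        rw [hzh a, mul_zero]
      have e3 := n5 (z * ((z - h) * a)) ((z - h) * (h * a))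
      rw [hzh (h * a)] at e3
      have e4 := n0 (z * ((z - h) * a) + (z - h) * (h * a))
      linarith
    obtain ⟨b, hb⟩ : ∃ b, b = a - u * a := ⟨_, rfl⟩
    have hbN : t ^ 2 * sn f b = sn f (w - c • a) := by
      rw [← hzz, ← neg, ← hcn, ← n6]
      congr 1
      rw [hb, hu, smul_neg, smul_sub, smul_mul_assoc, smul_smul, mul_inv_cancel₀ hc0, one_smul,
        mul_assoc]
      abel
    have hab : a = b + q * b := by
      have e1 : q * b = q * a - q * u * a := by rw [hb, mul_sub, mul_assoc]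
      have e2 : q * u = q - u := eq_sub_of_add_eq' hq
      rw [e1, e2, hb, sub_mul]
      abel
    have hb2 : sn f b ≤ 2 * s * sn f a := by
      have e1 : (t ^ 2 * sn f b) ^ 2 ≤ (t ^ 2 * (2 * s * sn f a)) ^ 2 := by
        rw [hbN, hdist]
        have e2 : sn f w ^ 2 ≤ (t * (t * sn f a)) ^ 2 := pow_le_pow_left₀ (n0 w) hwN 2
        have e3 : ((1 - s ^ 2) * t * sn f a) ^ 2 ≤ sn f (h * a) ^ 2 := by
          refine pow_le_pow_left₀ ?_ ha.le 2
          exact mul_nonneg (mul_nonneg (by nlinarith) ht0) hna.le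
        have e4 : 2 * t ^ 2 * ((1 - s ^ 2) * t * sn f a) ^ 2 ≤ 2 * t ^ 2 * sn f (h * a) ^ 2 :=
          mul_le_mul_of_nonneg_left e3 (by positivity)
        have e5 : 0 ≤ 2 * t ^ 4 * s ^ 4 * sn f a ^ 2 := by positivity
        nlinarith
      have e6 := abs_le_of_sq_le_sq e1 (by positivity)
      have e7 : t ^ 2 * sn f b ≤ t ^ 2 * (2 * s * sn f a) := (le_abs_self _).trans e6
      exact le_of_mul_le_mul_left e7 (by positivity)
    have hfin : sn f a ≤ (1 + Real.sqrt ‖star q * q‖) * sn f b := by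
      calc sn f a = sn f (b + q * b) := by rw [← hab]
        _ ≤ sn f b + sn f (q * b) := n5 _ _
        _ ≤ sn f b + Real.sqrt ‖star q * q‖ * sn f b := by linarith [n7 q b]
        _ = (1 + Real.sqrt ‖star q * q‖) * sn f b := by ring
    have hfin2 : (1 + Real.sqrt ‖star q * q‖) * sn f b ≤
        (1 + Real.sqrt ‖star q * q‖) * (2 * s * sn f a) :=
      mul_le_mul_of_nonneg_left hb2 (by positivity)
    have hfin3 : (1 + Real.sqrt ‖star q * q‖) * (2 * s * sn f a) = 1 / 2 * sn f a := by
      rw [← mul_assoc, hs2]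
    linarith
  intro a
  rw [hN]
  exact (htb a).trans (mul_le_mul_of_nonneg_right hmain (n0 a))

end Pool.Agent.R233.TR

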