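import Pool.Agent.R233.TR.Stm

set_option autoImplicit false

open Filter Topology
open scoped NNReal ENNReal

namespace Pool.Agent.R233.TR

universe u

namespace Ford

section seq

variable {A : Type u} [NonUnitalNormedRing A] [NormedSpace ℂ A]

/-- the iteration `v ↦ (h + v²) / 2` -/
noncomputable def vs (h : A) : ℕ → A
  | 0 => 0
  | n + 1 => (1 / 2 : ℂ) • (h + vs h n * vs h n)

theorem norm_half : ‖(1 / 2 : ℂ)‖ = 1 / 2 := by
  rw [norm_div, norm_one]
  norm_num

theorem vs_norm {h : A} (hh : ‖h‖ < 1) (n : ℕ) : ‖vs h n‖ ≤ ‖h‖ := by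
  induction n with
  | zero => simp [vs]
  | succ n ih =>
    have h1 : ‖vs h n * vs h n‖ ≤ ‖h‖ := by
      calc ‖vs h n * vs h n‖ ≤ ‖vs h n‖ * ‖vs h n‖ := norm_mul_le _ _
        _ ≤ ‖h‖ * 1 := mul_le_mul ih (ih.trans hh.le) (norm_nonneg _) (norm_nonneg _)
        _ = ‖h‖ := mul_one _
    have h2 : ‖h + vs h n * vs h n‖ ≤ ‖h‖ + ‖h‖ :=
      (norm_add_le _ _).trans (by linarith)
    calc ‖vs h (n + 1)‖ = ‖(1 / 2 : ℂ)‖ * ‖h + vs h n * vs h n‖ := norm_smul _ _
      _ = (1 / 2) * ‖h + vs h n * vs h n‖ := by rw [norm_half]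
      _ ≤ ‖h‖ := by linarith

theorem vs_dist {h : A} (hh : ‖h‖ < 1) (n : ℕ) :
    dist (vs h n) (vs h (n + 1)) ≤ ‖h‖ * ‖h‖ ^ n := by
  induction n with
  | zero =>
    have e : vs h (0 + 1) = (1 / 2 : ℂ) • h := by simp [vs]
    rw [e, pow_zero, mul_one]
    show dist (0 : A) _ ≤ _
    rw [dist_zero_left, norm_smul, norm_half]
    linarith [norm_nonneg h]
  | succ n ih =>
    have e : vs h (n + 1) - vs h (n + 1 + 1) = (1 / 2 : ℂ) •
        (vs h n * (vs h n - vs h (n + 1)) + (vs h n - vs h (n + 1)) * vs h (n + 1)) := by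
      show (1 / 2 : ℂ) • (h + vs h n * vs h n) -
        (1 / 2 : ℂ) • (h + vs h (n + 1) * vs h (n + 1)) = _
      rw [← smul_sub]
      congr 1
      rw [mul_sub, sub_mul]
      abel
    rw [dist_eq_norm] at ih ⊢
    rw [e, norm_smul, norm_half]
    have h1 : ‖vs h n * (vs h n - vs h (n + 1))‖ ≤ ‖h‖ * (‖h‖ * ‖h‖ ^ n) :=
      (norm_mul_le _ _).trans (mul_le_mul (vs_norm hh n) ih (norm_nonneg _) (norm_nonneg _))
    have h2 : ‖(vs h n - vs h (n + 1)) * vs h (n + 1)‖ ≤ (‖h‖ * ‖h‖ ^ n) * ‖h‖ :=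
      (norm_mul_le _ _).trans (mul_le_mul ih (vs_norm hh (n + 1)) (norm_nonneg _)
        (mul_nonneg (norm_nonneg _) (pow_nonneg (norm_nonneg _) _)))
    have h3 := norm_add_le (vs h n * (vs h n - vs h (n + 1)))
      ((vs h n - vs h (n + 1)) * vs h (n + 1))
    have h4 : ‖h‖ * ‖h‖ ^ (n + 1) = ‖h‖ * (‖h‖ * ‖h‖ ^ n) := by ring
    have h5 : (‖h‖ * ‖h‖ ^ n) * ‖h‖ = ‖h‖ * (‖h‖ * ‖h‖ ^ n) := by ring
    rw [h4]
    rw [h5] at h2
    linarith

theorem vs_commute [IsScalarTower ℂ A A] [SMulCommClass ℂ A A] {h w : A} (hw : w * h = h * w)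
    (n : ℕ) : w * vs h n = vs h n * w := by
  induction n with
  | zero => simp [vs]
  | succ n ih =>
    show w * ((1 / 2 : ℂ) • (h + vs h n * vs h n)) = ((1 / 2 : ℂ) • (h + vs h n * vs h n)) * w
    rw [mul_smul_comm, smul_mul_assoc, mul_add, add_mul, hw, ← mul_assoc, ih, mul_assoc, ih,
      mul_assoc]

theorem exists_v [IsScalarTower ℂ A A] [SMulCommClass ℂ A A] [CompleteSpace A] {h : A}
    (hh : ‖h‖ < 1) : ∃ v : A, ‖v‖ ≤ ‖h‖ ∧ v + v - v * v = h ∧
      ∀ w, w * h = h * w → w * v = v * w := by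
  have hc : CauchySeq (vs h) := cauchySeq_of_le_geometric ‖h‖ ‖h‖ hh (vs_dist hh)
  obtain ⟨v, hv⟩ := cauchySeq_tendsto_of_complete hc
  refine ⟨v, le_of_tendsto hv.norm (Eventually.of_forall (vs_norm hh)), ?_, fun w hw => ?_⟩
  · have h1 : Tendsto (fun n => vs h (n + 1)) atTop (𝓝 v) := (tendsto_add_atTop_iff_nat 1).2 hv
    have h2 : Tendsto (fun n => (1 / 2 : ℂ) • (h + vs h n * vs h n)) atTop
        (𝓝 ((1 / 2 : ℂ) • (h + v * v))) :=
      (tendsto_const_nhds.add (hv.mul hv)).const_smul _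
    have h3 : v = (1 / 2 : ℂ) • (h + v * v) := tendsto_nhds_unique h1 h2
    have h4 : v + v = h + v * v := by
      have : (2 : ℂ) • v = (2 : ℂ) • ((1 / 2 : ℂ) • (h + v * v)) := congrArg _ h3
      rw [smul_smul, two_smul] at this
      rw [this]
      norm_num
    rw [h4, add_sub_cancel_right]
  · have h1 : Tendsto (fun n => w * vs h n) atTop (𝓝 (w * v)) := tendsto_const_nhds.mul hv
    have h2 : Tendsto (fun n => vs h n * w) atTop (𝓝 (v * w)) := hv.mul tendsto_const_nhds
    have h3 : (fun n => w * vs h n) = (fun n => vs h n * w) := funext (vs_commute hw)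
    rw [h3] at h1
    exact tendsto_nhds_unique h1 h2

end seq

/-- the purely normed part: in a complex Banach algebra -/
theorem banach {U : Type u} [NormedRing U] [NormedAlgebra ℂ U] [CompleteSpace U] (V W : U)
    (hV : ‖V‖ < 1) (hW : spectralRadius ℂ W < 1) (hc : W * V = V * W)
    (he : V + V - V * V = W + W - W * W) : V = W := by
  set D := V - W with hD
  set B := 1 + 1 - V with hB
  have hDW : D * W = D * B := by
    have h1 : D * B - D * W = (V + V - V * V) - (W + W - W * W) := by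
      rw [hD, hB]
      have h2 : (V - W) * (1 + 1 - V) - (V - W) * W =
          V + V - V * V - (W + W) + W * V - V * W + W * W := by
        noncomm_ring
      rw [h2, hc]
      abel
    rw [he, sub_self] at h1
    exact (sub_eq_zero.1 h1).symm
  have hBW : Commute B W := by
    show B * W = W * B
    rw [hB, sub_mul, mul_sub, hc, add_mul, mul_add, one_mul, mul_one]
  have hpow : ∀ n : ℕ, D * W ^ n = D * B ^ n := by
    intro n
    induction n with
    | zero => simp
    | succ n ih =>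
      calc D * W ^ (n + 1) = (D * W ^ n) * W := by rw [pow_succ, mul_assoc]
        _ = D * (B ^ n * W) := by rw [ih, mul_assoc]
        _ = D * (W * B ^ n) := by rw [(hBW.pow_left n).eq]
        _ = (D * W) * B ^ n := by rw [mul_assoc]
        _ = D * B ^ (n + 1) := by rw [hDW, mul_assoc, pow_succ']
  have hlow : ∀ X : U, ‖X‖ ≤ ‖X * B‖ := by
    intro X
    have h1 : X * B = (X + X) - X * V := by rw [hB]; noncomm_ring
    have h2 : ‖X + X‖ = 2 * ‖X‖ := by
      rw [← two_smul ℂ X, norm_smul]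
      simp
    have h3 : ‖X * V‖ ≤ ‖X‖ := (norm_mul_le _ _).trans
      (by nlinarith [norm_nonneg X, norm_nonneg V])
    have h4 := norm_sub_norm_le (X + X) (X * V)
    rw [h1]
    linarith
  have hlow' : ∀ n : ℕ, ‖D‖ ≤ ‖D * B ^ n‖ := by
    intro n
    induction n with
    | zero => simp
    | succ n ih =>
      rw [pow_succ, ← mul_assoc]
      exact ih.trans (hlow _)
  have hg := spectrum.pow_nnnorm_pow_one_div_tendsto_nhds_spectralRadius W
  have hev := (hg.eventually (gt_mem_nhds hW)).and (eventually_ge_atTop 1)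
  obtain ⟨n, hn1, hn2⟩ := hev.exists
  have hn3 : ‖W ^ n‖ < 1 := by
    by_contra hcon
    push Not at hcon
    have h1 : (1 : ℝ≥0∞) ≤ (‖W ^ n‖₊ : ℝ≥0∞) := by exact_mod_cast hcon
    have h2 : (1 : ℝ≥0∞) ≤ (‖W ^ n‖₊ : ℝ≥0∞) ^ (1 / n : ℝ) :=
      ENNReal.one_le_rpow h1 (by positivity)
    exact absurd hn1 (not_lt.2 h2)
  have h1 : ‖D‖ ≤ ‖D‖ * ‖W ^ n‖ := by
    calc ‖D‖ ≤ ‖D * B ^ n‖ := hlow' n
      _ = ‖D * W ^ n‖ := by rw [hpow]
      _ ≤ ‖D‖ * ‖W ^ n‖ := norm_mul_le _ _
  have h2 : ‖D‖ = 0 := by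
    by_contra hne
    have : 0 < ‖D‖ := lt_of_le_of_ne (norm_nonneg _) (Ne.symm hne)
    nlinarith
  exact sub_eq_zero.1 (norm_eq_zero.1 h2)

section star

variable {A : Type u} [NonUnitalNormedRing A] [NormedSpace ℂ A] [IsScalarTower ℂ A A]
    [SMulCommClass ℂ A A]

/-- the embedding into the unitization -/
noncomputable def ι (a : A) : WithLp 1 (Unitization ℂ A) := WithLp.toLp 1 (Unitization.inr a)

theorem ι_add (a b : A) : ι (a + b) = ι a + ι b := by
  unfold ι
  rw [Unitization.inr_add]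
  rfl

theorem ι_mul (a b : A) : ι (a * b) = ι a * ι b := by
  unfold ι
  rw [Unitization.inr_mul]
  rfl

theorem ι_sub (a b : A) : ι (a - b) = ι a - ι b := by
  unfold ι
  rw [Unitization.inr_sub]
  rfl

theorem ι_norm (a : A) : ‖ι a‖ = ‖a‖ := WithLp.unitization_norm_inr a

theorem norm_one' : ‖(1 : WithLp 1 (Unitization ℂ A))‖ = 1 := by
  rw [WithLp.unitization_norm_def]
  show ‖(1 : Unitization ℂ A).fst‖ + ‖(1 : Unitization ℂ A).snd‖ = 1
  simp

theorem star_eq [CompleteSpace A] [StarRing A] [StarModule ℂ A] (v : A) (hv : ‖v‖ < 1)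
    (hc : star v * v = v * star v) (he : v + v - v * v = star v + star v - star v * star v) :
    star v = v := by
  have h1 : ι v = ι (star v) := by
    refine banach (ι v) (ι (star v)) (by rw [ι_norm]; exact hv) ?_ ?_ ?_
    · have h2 : spectralRadius ℂ (ι (star v)) ≤ (‖v‖₊ : ℝ≥0∞) := by
        refine iSup₂_le fun k hk => ?_
        have e1 : spectrum ℂ (ι (star v)) = spectrum ℂ (star (Unitization.inr v : Unitization ℂ A)) := by
          have := AlgEquiv.spectrum_eq (WithLp.unitizationAlgEquiv (𝕜 := ℂ) (A := A) ℂ)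
            (ι (star v))
          rw [← this]
          congr 1
          exact Unitization.inr_star v
        have e2 : spectrum ℂ (ι v) = spectrum ℂ (Unitization.inr v : Unitization ℂ A) := by
          have := AlgEquiv.spectrum_eq (WithLp.unitizationAlgEquiv (𝕜 := ℂ) (A := A) ℂ) (ι v)
          rw [← this]
          congr 1
        rw [e1, spectrum.map_star, ← e2] at hk
        have h3 : star k ∈ spectrum ℂ (ι v) := hk
        have h4 := spectrum.norm_le_norm_mul_of_mem h3
        rw [norm_one', mul_one, ι_norm, norm_star] at h4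
        exact_mod_cast h4
      refine lt_of_le_of_lt h2 ?_
      exact_mod_cast hv
    · rw [← ι_mul, ← ι_mul, hc]
    · rw [← ι_mul, ← ι_mul, ← ι_add, ← ι_add, ← ι_sub, ← ι_sub, he]
  have h2 : Unitization.inr v = (Unitization.inr (star v) : Unitization ℂ A) :=
    congrArg (fun z : WithLp 1 (Unitization ℂ A) => WithLp.ofLp z) h1
  exact (Unitization.inr_injective h2).symm

end star

end Ford

theorem s_ford : S_ford.{u} := by
  intro A _ _ _ _ _ _ _ h hs hn
  obtain ⟨v, hv1, hv2, hv3⟩ := Ford.exists_v hn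
  have e : star v + star v - star v * star v = h := by
    have := congrArg star hv2
    rwa [star_sub, star_add, star_mul, hs] at this
  refine ⟨v, Ford.star_eq v (lt_of_le_of_lt hv1 hn) ?_ (hv2.trans e.symm), hv2⟩
  apply hv3
  rw [← e, mul_sub, sub_mul, mul_add, add_mul, mul_assoc]

end Pool.Agent.R233.TR
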