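import Pool.Agent.R233.TR.Stm

/-!
# TR-3 (MP_10b086_an)
-/

open Filter Topology

namespace Pool.Agent.R233.TR

universe u

theorem s_kap (h1 : S_cs.{u}) (h2 : S_ford.{u}) : S_kap.{u} := by
  intro A _ _ _ _ _ _ _ f hf x a
  obtain ⟨hnn, hsq, -, -, -, -⟩ := h1 A f hf
  have key : ∀ c : ℝ, ‖star x * x‖ < c → sn f (x * a) ^ 2 ≤ c * sn f a ^ 2 := by
    intro c hc
    have hc0 : 0 < c := lt_of_le_of_lt (norm_nonneg _) hc
    have hcC : (c : ℂ) ≠ 0 := by exact_mod_cast hc0.ne'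
    have hstar : star ((c : ℂ)⁻¹ • (star x * x)) = (c : ℂ)⁻¹ • (star x * x) := by
      rw [star_smul, star_mul, star_star, star_inv₀, Complex.star_def, Complex.conj_ofReal]
    have hnorm : ‖(c : ℂ)⁻¹ • (star x * x)‖ < 1 := by
      rw [norm_smul, norm_inv, Complex.norm_real, Real.norm_eq_abs, abs_of_pos hc0,
        inv_mul_lt_iff₀ hc0, mul_one]
      exact hc
    obtain ⟨v, hv, hv2⟩ := h2 A _ hstar hnorm
    have hpos := (hf (a - v * a)).1
    have e1 : star (a - v * a) * (a - v * a) = star a * a - star a * ((v + v - v * v) * a) := by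
      rw [star_sub, star_mul, hv]
      noncomm_ring
    have e2 : star a * ((v + v - v * v) * a) = (c : ℂ)⁻¹ • (star (x * a) * (x * a)) := by
      rw [hv2, smul_mul_assoc, mul_smul_comm, star_mul]
      congr 1
      simp only [mul_assoc]
    rw [e1, e2, map_sub, map_smul, hsq, hsq, smul_eq_mul] at hpos
    have e3 : (c : ℂ)⁻¹ * ((sn f (x * a) ^ 2 : ℝ) : ℂ) = ((c⁻¹ * sn f (x * a) ^ 2 : ℝ) : ℂ) := by
      push_cast
      rfl
    rw [e3, ← Complex.ofReal_sub, Complex.ofReal_re] at hpos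
    have h4 : c⁻¹ * sn f (x * a) ^ 2 ≤ sn f a ^ 2 := by linarith
    rwa [inv_mul_le_iff₀ hc0] at h4
  have hfin : sn f (x * a) ^ 2 ≤ ‖star x * x‖ * sn f a ^ 2 := by
    apply le_of_forall_pos_le_add
    intro δ hδ
    have hs : 0 < sn f a ^ 2 + 1 := by positivity
    have h4 := key (‖star x * x‖ + δ / (sn f a ^ 2 + 1)) (by
      have : 0 < δ / (sn f a ^ 2 + 1) := div_pos hδ hs
      linarith)
    have h5 : δ / (sn f a ^ 2 + 1) * sn f a ^ 2 ≤ δ := by
      rw [div_mul_eq_mul_div, div_le_iff₀ hs]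
      nlinarith [sq_nonneg (sn f a)]
    nlinarith
  have h6 := Real.sqrt_le_sqrt hfin
  rwa [Real.sqrt_sq (hnn _), Real.sqrt_mul (norm_nonneg _), Real.sqrt_sq (hnn _)] at h6

end Pool.Agent.R233.TR
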