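import Pool.Agent.R233.TR.Stm

/-! Piece TR-6 of project TR (MP_10b086_an): estimates for traces. -/

open Filter Topology

namespace Pool.Agent.R233.TR

universe u

namespace TraceAux

lemma aux_i {A : Type u} [NonUnitalNormedRing A] [NormedSpace ℂ A] [IsScalarTower ℂ A A]
    [SMulCommClass ℂ A A] [StarRing A] [StarModule ℂ A] (f : A →ₗ[ℂ] ℂ)
    (htr : ∀ a b, f (a * b) = f (b * a))
    (c0 : ∀ a, 0 ≤ sn f a)
    (c3 : ∀ a b, ‖f (star a * b)‖ ≤ sn f a * sn f b)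
    (C : ℝ) (hC : ∀ x a : A, sn f (x * a) ≤ C * ‖x‖ * sn f a) :
    ∀ y ∈ sq2 A, ∃ K : ℝ, ∀ x, ‖f (x * y)‖ ≤ K * ‖x‖ := by
  intro y hy
  unfold sq2 at hy
  induction hy using Submodule.span_induction with
  | mem y h =>
    obtain ⟨b, c, rfl⟩ := h
    refine ⟨sn f (star c) * (C * sn f b), fun x => ?_⟩
    have e : f (x * (b * c)) = f (star (star c) * (x * b)) := by
      rw [star_star, ← mul_assoc, htr]
    rw [e]
    calc ‖f (star (star c) * (x * b))‖ ≤ sn f (star c) * sn f (x * b) := c3 _ _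
      _ ≤ sn f (star c) * (C * ‖x‖ * sn f b) := mul_le_mul_of_nonneg_left (hC x b) (c0 _)
      _ = sn f (star c) * (C * sn f b) * ‖x‖ := by ring
  | zero => exact ⟨0, fun x => by simp⟩
  | add y z _ _ hy hz =>
    obtain ⟨K1, h1⟩ := hy
    obtain ⟨K2, h2⟩ := hz
    refine ⟨K1 + K2, fun x => ?_⟩
    rw [mul_add, map_add, add_mul]
    exact (norm_add_le _ _).trans (add_le_add (h1 x) (h2 x))
  | smul r y _ hy =>
    obtain ⟨K, h⟩ := hy
    refine ⟨‖r‖ * K, fun x => ?_⟩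
    rw [mul_smul_comm, map_smul, smul_eq_mul, norm_mul, mul_assoc]
    exact mul_le_mul_of_nonneg_left (h x) (norm_nonneg _)

lemma sn_star {A : Type u} [NonUnitalNormedRing A] [NormedSpace ℂ A] [StarRing A]
    (f : A →ₗ[ℂ] ℂ) (htr : ∀ a b, f (a * b) = f (b * a)) (w : A) : sn f (star w) = sn f w := by
  unfold sn
  rw [star_star, htr]

lemma adj {A : Type u} [NonUnitalNormedRing A] [NormedSpace ℂ A] [StarRing A]
    (f : A →ₗ[ℂ] ℂ)
    (c0 : ∀ a, 0 ≤ sn f a)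
    (c1 : ∀ a, f (star a * a) = ((sn f a ^ 2 : ℝ) : ℂ))
    (c3 : ∀ a b, ‖f (star a * b)‖ ≤ sn f a * sn f b)
    (y : A) (hy : ∀ a, sn f (y * a) ≤ sn f a) (a : A) : sn f (star y * a) ≤ sn f a := by
  have h1 : sn f (star y * a) ^ 2 ≤ sn f a * sn f (star y * a) := by
    have e : f (star (star y * a) * (star y * a)) = f (star a * (y * (star y * a))) := by
      rw [star_mul, star_star, mul_assoc]
    have h2 := c3 a (y * (star y * a))
    rw [← e, c1, Complex.norm_real, Real.norm_eq_abs, abs_of_nonneg (sq_nonneg _)] at h2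
    exact h2.trans (mul_le_mul_of_nonneg_left (hy _) (c0 _))
  rcases (c0 (star y * a)).eq_or_lt with h | h
  · rw [← h]; exact c0 a
  · rw [sq] at h1
    exact le_of_mul_le_mul_right h1 h

lemma aux_ii {A : Type u} [NonUnitalNormedRing A] [NormedSpace ℂ A] [IsScalarTower ℂ A A]
    [SMulCommClass ℂ A A] [StarRing A] [StarModule ℂ A] (f : A →ₗ[ℂ] ℂ)
    (htr : ∀ a b, f (a * b) = f (b * a))
    (c0 : ∀ a, 0 ≤ sn f a)
    (c1 : ∀ a, f (star a * a) = ((sn f a ^ 2 : ℝ) : ℂ))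
    (c3 : ∀ a b, ‖f (star a * b)‖ ≤ sn f a * sn f b) :
    ∀ z ∈ sq2 A, ∃ K : ℝ, ∀ y, (∀ a, sn f (y * a) ≤ sn f a) → ‖f (z * y)‖ ≤ K := by
  intro z hz
  unfold sq2 at hz
  induction hz using Submodule.span_induction with
  | mem z h =>
    obtain ⟨a, b, rfl⟩ := h
    refine ⟨sn f (star a) * sn f (star b), fun y hy => ?_⟩
    have e : f (a * b * y) = f (star (star a) * (b * y)) := by
      rw [star_star, mul_assoc]
    rw [e]
    refine (c3 _ _).trans (mul_le_mul_of_nonneg_left ?_ (c0 _))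
    have e2 : sn f (b * y) = sn f (star y * star b) := by
      rw [← sn_star f htr (b * y), star_mul]
    rw [e2]
    exact adj f c0 c1 c3 y hy (star b)
  | zero => exact ⟨0, fun y _ => by simp⟩
  | add y z _ _ hy hz =>
    obtain ⟨K1, h1⟩ := hy
    obtain ⟨K2, h2⟩ := hz
    refine ⟨K1 + K2, fun x hx => ?_⟩
    rw [add_mul, map_add]
    exact (norm_add_le _ _).trans (add_le_add (h1 x hx) (h2 x hx))
  | smul r y _ hy =>
    obtain ⟨K, h⟩ := hy
    refine ⟨‖r‖ * K, fun x hx => ?_⟩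
    rw [smul_mul_assoc, map_smul, smul_eq_mul, norm_mul]
    exact mul_le_mul_of_nonneg_left (h x hx) (norm_nonneg _)

end TraceAux

theorem s_trace (h1 : S_cs.{u}) (h5 : S_bdd.{u}) : S_trace.{u} := by
  intro A _ _ _ _ _ _ _ f hf htr
  obtain ⟨c0, c1, -, c3, -, -⟩ := h1 A f hf
  obtain ⟨C, -, hC⟩ := h5 A f hf
  exact ⟨TraceAux.aux_i f htr c0 c3 C hC, TraceAux.aux_ii f htr c0 c1 c3⟩

end Pool.Agent.R233.TR
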