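import Pool.Agent.R233.TR.Stm

/-!
# TR-8a: uniform boundedness and the approximate identity
-/

set_option autoImplicit false

open Filter Topology

namespace Pool.Agent.R233.TR

universe u

namespace Ubpaux

theorem repr {A : Type u} [NonUnitalRing A] [Module ℂ A] [IsScalarTower ℂ A A]
    [SMulCommClass ℂ A A] {z : A} (hz : z ∈ cu3 A) :
    ∃ (n : ℕ) (a b c : Fin n → A), z = ∑ j, a j * b j * c j := by
  unfold cu3 at hz
  induction hz using Submodule.span_induction with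
  | mem x hx =>
    obtain ⟨a, b, c, rfl⟩ := hx
    exact ⟨1, fun _ => a, fun _ => b, fun _ => c, by simp⟩
  | zero => exact ⟨0, fun _ => 0, fun _ => 0, fun _ => 0, by simp⟩
  | add x y _ _ hx hy =>
    obtain ⟨n, a, b, c, rfl⟩ := hx
    obtain ⟨n', a', b', c', rfl⟩ := hy
    refine ⟨n + n', Fin.append a a', Fin.append b b', Fin.append c c', ?_⟩
    rw [Fin.sum_univ_add]
    simp only [Fin.append_left, Fin.append_right]
  | smul r x _ hx =>
    obtain ⟨n, a, b, c, rfl⟩ := hx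
    refine ⟨n, fun j => r • a j, b, c, ?_⟩
    rw [Finset.smul_sum]
    refine Finset.sum_congr rfl fun j _ => ?_
    rw [smul_mul_assoc, smul_mul_assoc]

theorem cu3_le (A : Type u) [NonUnitalRing A] [Module ℂ A] : cu3 A ≤ sq2 A := by
  unfold cu3 sq2
  refine Submodule.span_mono ?_
  rintro x ⟨a, b, c, rfl⟩
  exact ⟨a * b, c, rfl⟩

end Ubpaux

open Ubpaux

theorem s_ubp (h1 : S_cs.{u}) (h6 : S_trace.{u}) (h7 : S_appr.{u}) : S_ubp.{u} := by
  intro A _ _ _ _ _ _ _ f hf htr hcl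
  obtain ⟨hs0, _, _, hcs, _, _⟩ := h1 A f hf
  obtain ⟨h6a, h6b⟩ := h6 A f hf htr
  have hcomp : CompleteSpace (cu3 A) := hcl.completeSpace_coe
  obtain ⟨g, hg⟩ : ∃ g : {y : A // y ∈ sq2 A ∧ ∀ a, sn f (y * a) ≤ sn f a} →
      (cu3 A →L[ℂ] ℂ), ∀ y z, g y z = f ((z : A) * (y : A)) := by
    have h2 : ∀ y : {y : A // y ∈ sq2 A ∧ ∀ a, sn f (y * a) ≤ sn f a},
        ∃ g : cu3 A →L[ℂ] ℂ, ∀ z, g z = f ((z : A) * (y : A)) := by
      intro y
      obtain ⟨K, hK⟩ := h6a y y.2.1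
      obtain ⟨l, hl⟩ : ∃ l : cu3 A →ₗ[ℂ] ℂ, ∀ z, l z = f ((z : A) * (y : A)) := by
        refine ⟨{ toFun := fun z => f ((z : A) * (y : A))
                  map_add' := fun z w => ?_
                  map_smul' := fun c z => ?_ }, fun z => rfl⟩
        · rw [Submodule.coe_add, add_mul, map_add]
        · rw [Submodule.coe_smul, smul_mul_assoc, map_smul, RingHom.id_apply]
      refine ⟨l.mkContinuous K fun z => ?_, fun z => ?_⟩
      · rw [hl]
        exact hK z
      · rw [LinearMap.mkContinuous_apply, hl]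
    choose g hg using h2
    exact ⟨g, hg⟩
  obtain ⟨C, hC⟩ := banach_steinhaus (g := g) (fun z => by
    obtain ⟨K, hK⟩ := h6b z (cu3_le A z.2)
    refine ⟨K, fun y => ?_⟩
    rw [hg]
    exact hK y y.2.2)
  refine ⟨C, fun z hz => ?_⟩
  obtain ⟨n, a, b, c, hzr⟩ := repr hz
  obtain ⟨S, hS⟩ : ∃ S : ℝ, S = ∑ j, sn f (star (c j)) := ⟨_, rfl⟩
  have hS0 : 0 ≤ S := by
    rw [hS]
    exact Finset.sum_nonneg fun j _ => hs0 _
  refine le_of_forall_pos_le_add fun δ hδ => ?_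
  obtain ⟨y, hy1, hy2, hy3⟩ := h7 A f hf n a b (δ / (S + 1)) (by positivity)
  have e1 : ‖f (z * y)‖ ≤ C * ‖z‖ := by
    have h3 := hg ⟨y, hy1, hy2⟩ ⟨z, hz⟩
    have h4 := (g ⟨y, hy1, hy2⟩).le_opNorm ⟨z, hz⟩
    rw [h3] at h4
    refine h4.trans ?_
    exact mul_le_mul_of_nonneg_right (hC _) (norm_nonneg _)
  have e2 : f (z * y) - f z = ∑ j, f (star (star (c j)) * (y * (a j * b j) - a j * b j)) := by
    rw [hzr, Finset.sum_mul, map_sum, map_sum, ← Finset.sum_sub_distrib]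
    refine Finset.sum_congr rfl fun j _ => ?_
    rw [star_star, mul_sub, map_sub, mul_assoc (a j * b j) (c j) y, htr (a j * b j) (c j * y),
      htr (a j * b j) (c j), mul_assoc (c j) y (a j * b j)]
  have e3 : ‖f (z * y) - f z‖ ≤ S * (δ / (S + 1)) := by
    rw [e2, hS, Finset.sum_mul]
    refine (norm_sum_le _ _).trans (Finset.sum_le_sum fun j _ => ?_)
    refine (hcs _ _).trans ?_
    exact mul_le_mul_of_nonneg_left (by rw [hS] at hy3; exact hy3 j) (hs0 _)
  have e4 : S * (δ / (S + 1)) ≤ δ := by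
    have h5 : S * (δ / (S + 1)) = δ * (S / (S + 1)) := by ring
    rw [h5]
    refine mul_le_of_le_one_right hδ.le ?_
    rw [div_le_one (by positivity)]
    linarith
  have e5 : ‖f z‖ ≤ ‖f (z * y)‖ + ‖f (z * y) - f z‖ := by
    have h6 : f z = f (z * y) - (f (z * y) - f z) := by ring
    calc ‖f z‖ = ‖f (z * y) - (f (z * y) - f z)‖ := by rw [← h6]
      _ ≤ _ := norm_sub_le _ _
  linarith

end Pool.Agent.R233.TR
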