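import Pool.Agent.R233.TR.Asm
import Pool.Agent.R233.TR.Tame2
import Pool.Agent.R233.TR.Cs
import Pool.Agent.R233.TR.Ford
import Pool.Agent.R233.TR.Kap
import Pool.Agent.R233.TR.Fest
import Pool.Agent.R233.TR.Bdd
import Pool.Agent.R233.TR.Trace
import Pool.Agent.R233.TR.Appr
import Pool.Agent.R233.TR.Ubp
import Pool.Agent.R233.TR.Cofin
import Pool.Agent.R233.TR.Analytic
import Pool.Agent.R233.TR.Cu3An
import Pool.Agent.R233.TR.Cu3Cof
import Pool.Agent.R233.TR.ExData
import Pool.Agent.R233.TR.Example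

/-!
# MP_10b086_an : final assembly (project TR)
-/

open Filter Topology

namespace Pool.Agent.R233.TR

universe u


theorem f_kap : S_kap.{u} := s_kap s_cs s_ford
theorem f_bdd : S_bdd.{u} := s_bdd s_cs f_kap (s_fest s_cs f_kap)
theorem f_ubp : S_ubp.{u} := s_ubp s_cs (s_trace s_cs f_bdd) (s_appr s_cs f_kap)

theorem final_H1 (A : Type u) [NonUnitalNormedRing A]
    [NormedSpace ℂ A] [IsScalarTower ℂ A A] [SMulCommClass ℂ A A] [CompleteSpace A] [StarRing A]
    [StarModule ℂ A] (f : A →ₗ[ℂ] ℂ) (hf : Positive f) (ht : ∀ a b, f (a * b) = f (b * a))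
    (h : sq2 A = ⊤) : Continuous f :=
  trace_H1 f_ubp s_cofin A f hf ht h

theorem final_H2 (A : Type u) [NonUnitalNormedRing A]
    [NormedSpace ℂ A] [IsScalarTower ℂ A A] [SMulCommClass ℂ A A] [CompleteSpace A] [StarRing A]
    [StarModule ℂ A] (f : A →ₗ[ℂ] ℂ) (hf : Positive f) (ht : ∀ a b, f (a * b) = f (b * a))
    (h1 : IsClosed (cu3 A : Set A)) (h2 : FiniteDimensional ℂ (A ⧸ cu3 A)) : Continuous f :=
  trace_H2 f_ubp s_cofin A f hf ht h1 h2

theorem final_H4 (A : Type u) [NonUnitalNormedRing A]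
    [NormedSpace ℂ A] [IsScalarTower ℂ A A] [SMulCommClass ℂ A A] [CompleteSpace A] [StarRing A]
    [StarModule ℂ A] [TopologicalSpace.SeparableSpace A] (f : A →ₗ[ℂ] ℂ) (hf : Positive f)
    (ht : ∀ a b, f (a * b) = f (b * a))
    (h : FiniteDimensional ℂ (A ⧸ sq2 A)) : Continuous f :=
  trace_H4 f_ubp s_cofin s_analytic s_cu3_analytic s_cu3_cofin A f hf ht h

theorem final_example : S_example := s_example s_exdata

end Pool.Agent.R233.TR
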