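import Mathlib
import Pool.Agent.R233.TR.Final

/-!
# Automatic continuity of traces on Banach star algebras

`A` is a complex Banach algebra, not necessarily unital, with an involution which is not assumed
to be continuous.  We show that every trace on `A` is continuous if `A³` is closed and cofinite,
hence also if `A = A²`, and also if `A` is separable and `A²` is cofinite.  On the other hand there
is a (nonseparable) Banach star algebra, even with isometric involution, with `A = A²` and with a
discontinuous positive functional.
-/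

set_option autoImplicit false

open Filter Topology

namespace Pool.Agent.Results.MP_10b086_an.TracesAndExample

open Pool.Agent.R233.TR

universe u

/-- `f` is a positive functional: `f (a* a)` is a nonnegative real number for all `a`. -/
def IsPositiveFunctional {A : Type u} [NonUnitalRing A] [StarRing A] [Module ℂ A]
    (f : A →ₗ[ℂ] ℂ) : Prop :=
  ∀ a : A, 0 ≤ (f (star a * a)).re ∧ (f (star a * a)).im = 0

/-- A trace is a positive functional with `f (a b) = f (b a)`. -/
def IsTrace {A : Type u} [NonUnitalRing A] [StarRing A] [Module ℂ A] (f : A →ₗ[ℂ] ℂ) : Prop :=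
  IsPositiveFunctional f ∧ ∀ a b, f (a * b) = f (b * a)

/-- `A²`, the linear span of all products `a b`. -/
def A2 (A : Type u) [NonUnitalRing A] [Module ℂ A] : Submodule ℂ A :=
  Submodule.span ℂ {x | ∃ a b : A, x = a * b}

/-- `A³`, the linear span of all products `a b c`. -/
def A3 (A : Type u) [NonUnitalRing A] [Module ℂ A] : Submodule ℂ A :=
  Submodule.span ℂ {x | ∃ a b c : A, x = a * b * c}

/-- (H1): `A = A²`. -/
def H1 (A : Type u) [NonUnitalNormedRing A] [NormedSpace ℂ A] : Prop := A2 A = ⊤

/-- (H2): `A³` is closed and cofinite. -/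
def H2 (A : Type u) [NonUnitalNormedRing A] [NormedSpace ℂ A] : Prop :=
  IsClosed (A3 A : Set A) ∧ FiniteDimensional ℂ (A ⧸ A3 A)

/-- (H3): `A` is separable and `A = A²`. -/
def H3 (A : Type u) [NonUnitalNormedRing A] [NormedSpace ℂ A] : Prop :=
  TopologicalSpace.SeparableSpace A ∧ A2 A = ⊤

/-- (H4): `A` is separable and `A²` is cofinite. -/
def H4 (A : Type u) [NonUnitalNormedRing A] [NormedSpace ℂ A] : Prop :=
  TopologicalSpace.SeparableSpace A ∧ FiniteDimensional ℂ (A ⧸ A2 A)

/-- Part (a), (b) for the hypotheses. The first statement: every trace on every Banach star algebra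
(with a possibly discontinuous involution) satisfying (H1), (H2), (H3) or (H4) is continuous.
The second statement: there is a Banach star algebra satisfying (H1) and (H2), even with an
isometric involution, with a discontinuous positive functional. -/
theorem result :
    (∀ (A : Type u) [NonUnitalNormedRing A] [NormedSpace ℂ A] [IsScalarTower ℂ A A]
      [SMulCommClass ℂ A A] [CompleteSpace A] [StarRing A] [StarModule ℂ A] (f : A →ₗ[ℂ] ℂ),
      H1 A ∨ H2 A ∨ H3 A ∨ H4 A → IsTrace f → Continuous f) ∧
    (∃ (A : Type) (_ : NonUnitalNormedRing A) (_ : NormedSpace ℂ A) (_ : IsScalarTower ℂ A A)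
      (_ : SMulCommClass ℂ A A) (_ : CompleteSpace A) (_ : StarRing A) (_ : StarModule ℂ A)
      (_ : NormedStarGroup A) (f : A →ₗ[ℂ] ℂ),
      H1 A ∧ H2 A ∧ IsPositiveFunctional f ∧ ¬ Continuous f) := by
  constructor
  · intro A _ _ _ _ _ _ _ f h hf
    rcases h with h | h | h | h
    · exact final_H1 A f hf.1 hf.2 h
    · exact final_H2 A f hf.1 hf.2 h.1 h.2
    · exact final_H1 A f hf.1 hf.2 h.2
    · haveI := h.1
      exact final_H4 A f hf.1 hf.2 h.2
  · obtain ⟨A, i1, i2, i3, i4, i5, i6, i7, i8, f, h, hf, hc⟩ := final_example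
    have h3 : A3 A = ⊤ := cu3_eq_top h
    refine ⟨A, i1, i2, i3, i4, i5, i6, i7, i8, f, h, ⟨?_, ?_⟩, hf, hc⟩
    · rw [h3]; exact isClosed_univ
    · rw [h3]; infer_instance

end Pool.Agent.Results.MP_10b086_an.TracesAndExample
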